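import Pool.Agent.MP_394f71_al.H79.UT

set_option autoImplicit false

namespace Pool.Agent.MP_394f71_al.H79

open UT

variable {R : Type} [CommRing R]

theorem pm {m : Ideal R} {a b c : ℕ} {x y : R} (hx : x ∈ m ^ a) (hy : y ∈ m ^ b)
    (h : c ≤ a + b) : x * y ∈ m ^ c := by
  have := Ideal.mul_mem_mul hx hy
  rw [← pow_add] at this
  exact Ideal.pow_le_pow_right h this

theorem pmono {m : Ideal R} {a c : ℕ} {x : R} (hx : x ∈ m ^ a) (h : c ≤ a) : x ∈ m ^ c :=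
  Ideal.pow_le_pow_right h hx

theorem pzero {m : Ideal R} {c : ℕ} (x : R) (h : c = 0) : x ∈ m ^ c := by
  subst h; simp

/-- Weight filtration: an entry at distance l from the diagonal lies in m to the w - mu l. -/
def Fil (m : Ideal R) (μ w : ℕ) : AddSubgroup (UT R) where
  carrier := {x | x.d1 ∈ m ^ w ∧ x.d2 ∈ m ^ w ∧ x.d3 ∈ m ^ w ∧ x.d4 ∈ m ^ w ∧
    x.a12 ∈ m ^ (w - μ) ∧ x.a23 ∈ m ^ (w - μ) ∧ x.a34 ∈ m ^ (w - μ) ∧
    x.a13 ∈ m ^ (w - 2 * μ) ∧ x.a24 ∈ m ^ (w - 2 * μ) ∧ x.a14 ∈ m ^ (w - 3 * μ)}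
  zero_mem' := by simp only [Set.mem_ofPred_eq, zero_def, Ideal.zero_mem, and_self]
  add_mem' := by
    rintro x y ⟨h1, h2, h3, h4, h5, h6, h7, h8, h9, h10⟩ ⟨k1, k2, k3, k4, k5, k6, k7, k8, k9, k10⟩
    exact ⟨Ideal.add_mem _ h1 k1, Ideal.add_mem _ h2 k2, Ideal.add_mem _ h3 k3,
      Ideal.add_mem _ h4 k4, Ideal.add_mem _ h5 k5, Ideal.add_mem _ h6 k6, Ideal.add_mem _ h7 k7,
      Ideal.add_mem _ h8 k8, Ideal.add_mem _ h9 k9, Ideal.add_mem _ h10 k10⟩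
  neg_mem' := by
    rintro x ⟨h1, h2, h3, h4, h5, h6, h7, h8, h9, h10⟩
    exact ⟨neg_mem h1, neg_mem h2, neg_mem h3, neg_mem h4, neg_mem h5, neg_mem h6, neg_mem h7,
      neg_mem h8, neg_mem h9, neg_mem h10⟩

theorem mem_Fil {m : Ideal R} {μ w : ℕ} {x : UT R} : x ∈ Fil m μ w ↔
    x.d1 ∈ m ^ w ∧ x.d2 ∈ m ^ w ∧ x.d3 ∈ m ^ w ∧ x.d4 ∈ m ^ w ∧
    x.a12 ∈ m ^ (w - μ) ∧ x.a23 ∈ m ^ (w - μ) ∧ x.a34 ∈ m ^ (w - μ) ∧
    x.a13 ∈ m ^ (w - 2 * μ) ∧ x.a24 ∈ m ^ (w - 2 * μ) ∧ x.a14 ∈ m ^ (w - 3 * μ) := Iff.rfl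

theorem Fil_mul {m : Ideal R} {μ a b c : ℕ} {x y : UT R} (hx : x ∈ Fil m μ a)
    (hy : y ∈ Fil m μ b) (h : c ≤ a + b) : x * y ∈ Fil m μ c := by
  obtain ⟨h1, h2, h3, h4, h5, h6, h7, h8, h9, h10⟩ := hx
  obtain ⟨k1, k2, k3, k4, k5, k6, k7, k8, k9, k10⟩ := hy
  refine ⟨pm h1 k1 h, pm h2 k2 h, pm h3 k3 h, pm h4 k4 h, ?_, ?_, ?_, ?_, ?_, ?_⟩
  · exact Ideal.add_mem _ (pm h1 k5 (by omega)) (pm h5 k2 (by omega))
  · exact Ideal.add_mem _ (pm h2 k6 (by omega)) (pm h6 k3 (by omega))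
  · exact Ideal.add_mem _ (pm h3 k7 (by omega)) (pm h7 k4 (by omega))
  · exact Ideal.add_mem _ (Ideal.add_mem _ (pm h1 k8 (by omega)) (pm h5 k6 (by omega)))
      (pm h8 k3 (by omega))
  · exact Ideal.add_mem _ (Ideal.add_mem _ (pm h2 k9 (by omega)) (pm h6 k7 (by omega)))
      (pm h9 k4 (by omega))
  · exact Ideal.add_mem _ (Ideal.add_mem _ (Ideal.add_mem _ (pm h1 k10 (by omega))
      (pm h5 k9 (by omega))) (pm h8 k7 (by omega))) (pm h10 k4 (by omega))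

theorem Fil_mono {m : Ideal R} {μ a c : ℕ} {x : UT R} (hx : x ∈ Fil m μ a) (h : c ≤ a) :
    x ∈ Fil m μ c := by
  obtain ⟨h1, h2, h3, h4, h5, h6, h7, h8, h9, h10⟩ := hx
  exact ⟨pmono h1 h, pmono h2 h, pmono h3 h, pmono h4 h, pmono h5 (by omega), pmono h6 (by omega),
    pmono h7 (by omega), pmono h8 (by omega), pmono h9 (by omega), pmono h10 (by omega)⟩

theorem Fil_zero (m : Ideal R) (μ : ℕ) (x : UT R) : x ∈ Fil m μ 0 :=
  ⟨pzero _ rfl, pzero _ rfl, pzero _ rfl, pzero _ rfl, pzero _ (by omega), pzero _ (by omega),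
    pzero _ (by omega), pzero _ (by omega), pzero _ (by omega), pzero _ (by omega)⟩

theorem Fil_mul_left {m : Ideal R} {μ a : ℕ} {y : UT R} (x : UT R) (hy : y ∈ Fil m μ a) :
    x * y ∈ Fil m μ a := Fil_mul (Fil_zero m μ x) hy (by omega)

theorem Fil_mul_right {m : Ideal R} {μ a : ℕ} {x : UT R} (hx : x ∈ Fil m μ a) (y : UT R) :
    x * y ∈ Fil m μ a := Fil_mul hx (Fil_zero m μ y) (by omega)

theorem Fil_eq_zero {m : Ideal R} {μ N w : ℕ} (hN : m ^ N = ⊥) {x : UT R} (hx : x ∈ Fil m μ w)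
    (h : N + 3 * μ ≤ w) : x = 0 := by
  obtain ⟨h1, h2, h3, h4, h5, h6, h7, h8, h9, h10⟩ := hx
  have z : ∀ {k : ℕ} {r : R}, r ∈ m ^ k → N ≤ k → r = 0 := fun hr hk => by
    have := pmono hr hk
    rwa [hN, Ideal.mem_bot] at this
  ext
  exacts [z h1 (by omega), z h2 (by omega), z h3 (by omega), z h4 (by omega), z h5 (by omega),
    z h6 (by omega), z h7 (by omega), z h8 (by omega), z h9 (by omega), z h10 (by omega)]

/-- A matrix whose diagonal lies in m to the w has weight w as soon as w is at most mu. -/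
theorem Fil_of_diag {m : Ideal R} {μ w : ℕ} {x : UT R} (h : w ≤ μ) (h1 : x.d1 ∈ m ^ w)
    (h2 : x.d2 ∈ m ^ w) (h3 : x.d3 ∈ m ^ w) (h4 : x.d4 ∈ m ^ w) : x ∈ Fil m μ w :=
  ⟨h1, h2, h3, h4, pzero _ (by omega), pzero _ (by omega),
    pzero _ (by omega), pzero _ (by omega), pzero _ (by omega), pzero _ (by omega)⟩

theorem Fil_of_str (m : Ideal R) {μ w : ℕ} {x : UT R} (h : w ≤ μ) (hx : Str x) :
    x ∈ Fil m μ w := by
  obtain ⟨h1, h2, h3, h4⟩ := hx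
  exact Fil_of_diag h (h1 ▸ Ideal.zero_mem _) (h2 ▸ Ideal.zero_mem _) (h3 ▸ Ideal.zero_mem _)
    (h4 ▸ Ideal.zero_mem _)

theorem Fil_pow {m : Ideal R} {μ a : ℕ} {x : UT R} (hx : x ∈ Fil m μ a) (n : ℕ) :
    x ^ n ∈ Fil m μ (a * n) := by
  induction n with
  | zero => exact Fil_zero _ _ _
  | succ n ih => rw [pow_succ]; exact Fil_mul ih hx (by rw [Nat.mul_succ])

theorem Fil_pow_sub {m : Ideal R} {μ a b : ℕ} {x y : UT R} (hx : x ∈ Fil m μ a)
    (hy : y ∈ Fil m μ a) (hxy : x - y ∈ Fil m μ b) (n : ℕ) :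
    x ^ (n + 1) - y ^ (n + 1) ∈ Fil m μ (a * n + b) := by
  induction n with
  | zero => simpa using hxy
  | succ n ih =>
    have e : x ^ (n + 1 + 1) - y ^ (n + 1 + 1) =
        x * (x ^ (n + 1) - y ^ (n + 1)) + (x - y) * y ^ (n + 1) := by
      rw [pow_succ' x (n + 1), pow_succ' y (n + 1), mul_sub, sub_mul]; abel
    rw [e]
    refine add_mem (Fil_mul hx ih ?_) (Fil_mul hxy (Fil_pow hy (n + 1)) ?_)
    · rw [Nat.mul_succ]; omega
    · omega

theorem dd_mem {m : Ideal R} {μ a w : ℕ} {z z' M : UT R} (hz : z * z' = 1)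
    (h1 : z - 1 ∈ Fil m μ a) (hM : M ∈ Fil m μ w) : dd z z' M ∈ Fil m μ (w + a) := by
  have e : dd z z' M = ((z - 1) * M - M * (z - 1)) * z' := by
    simp only [dd, sub_mul, mul_sub, one_mul, mul_one, mul_assoc, hz]; abel
  rw [e]
  exact Fil_mul_right (sub_mem (Fil_mul h1 hM (by omega)) (Fil_mul hM h1 (by omega))) _

theorem frob {A : Type} [Ring A] (h : (13 : A) = 0) {x y : A} (hc : Commute x y) (k : ℕ) :
    (x + y) ^ 13 ^ k = x ^ 13 ^ k + y ^ 13 ^ k := by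
  obtain ⟨r, hr⟩ := hc.exists_add_pow_prime_pow_eq (p := 13) (by norm_num) k
  rw [hr]
  have : ((13 : ℕ) : A) = 0 := by exact_mod_cast h
  rw [this]; simp

theorem frob_sub {A : Type} [Ring A] (h : (13 : A) = 0) {x y : A} (hc : Commute x y) (k : ℕ) :
    (x - y) ^ 13 ^ k = x ^ 13 ^ k - y ^ 13 ^ k := by
  have := frob h ((hc.sub_left (Commute.refl y))) k
  rw [sub_add_cancel] at this
  rw [this]; abel

theorem cast_pow13 {A : Type} [Ring A] (h : (13 : A) = 0) (n : ℕ) : (n : A) ^ 13 = n := by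
  induction n with
  | zero => simp
  | succ n ih =>
    have := frob h (Commute.one_right (n : A)) 1
    rw [pow_one, one_pow, ih] at this
    rw [Nat.cast_succ, this]

/-- The exponent of the fake power map. -/
def J : ℕ := 4225

theorem J_eq : J = 4225 := rfl

theorem J_mul : J = 13 ^ 2 * 25 := rfl

theorem cast_powJ {A : Type} [Ring A] (h : (13 : A) = 0) (n : ℕ) :
    ((n : A) ^ 13 ^ 2) = n ∧ (n : A) ^ 25 = n := by
  have h1 := cast_pow13 h n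
  constructor
  · rw [show 13 ^ 2 = 13 * 13 from rfl, pow_mul, h1, h1]
  · rw [show 25 = 13 + 12 from rfl, pow_add, h1, ← pow_succ', h1]

/-- The correction term of the fake power map. -/
def nu (x : UT R) : UT R := (x - 1) ^ J

theorem nu_mem {m : Ideal R} {μ : ℕ} {x : UT R} (hx : x - 1 ∈ Fil m μ 1) : nu x ∈ Fil m μ J := by
  have := Fil_pow hx J
  rwa [one_mul] at this

theorem nu_congr {m : Ideal R} (hN : m ^ (J + 7) = ⊥) {x y : UT R} (hx : x - 1 ∈ Fil m 1 1)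
    (hy : y - 1 ∈ Fil m 1 1) (hxy : x - y ∈ Fil m 1 11) : nu x = nu y := by
  have h0 : (x - 1) - (y - 1) ∈ Fil m 1 11 := by rwa [sub_sub_sub_cancel_right]
  have := Fil_pow_sub hx hy h0 4224
  rw [← sub_eq_zero]
  exact Fil_eq_zero hN this (by rw [J_eq])

theorem nu_conj {z z' : UT R} (h1 : z * z' = 1) (h2 : z' * z = 1) (x : UT R) :
    nu (z * x * z') = z * nu x * z' := by
  have e : z * x * z' - 1 = z * (x - 1) * z' := by rw [mul_sub, sub_mul, mul_one, h1]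
  rw [nu, nu, e]
  generalize J = n
  induction n with
  | zero => simp [h1]
  | succ n ih =>
    rw [pow_succ, ih, pow_succ]
    calc z * (x - 1) ^ n * z' * (z * (x - 1) * z')
        = z * (x - 1) ^ n * (z' * z) * (x - 1) * z' := by simp only [mul_assoc]
      _ = _ := by rw [h2]; simp only [mul_assoc, mul_one]

theorem nu_pow (h : (13 : R) = 0) {m : Ideal R} (hN : m ^ (J + 7) = ⊥) {x : UT R}
    (hx : x - 1 ∈ Fil m 1 1) (n : ℕ) : nu (x ^ n) = n • nu x := by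
  have h' := thirteen h
  set S : UT R := ∑ i ∈ Finset.range n, x ^ i with hS
  have e1 : x ^ n - 1 = (x - 1) * S := (mul_geom_sum x n).symm
  have c1 : Commute (x - 1) S := by
    refine Commute.sum_right _ _ _ fun i _ => ?_
    exact ((Commute.refl x).sub_left (Commute.one_left x)).pow_right i
  have hA : S - n ∈ Fil m 1 1 := by
    have : S - n = ∑ i ∈ Finset.range n, (x ^ i - 1) := by
      rw [Finset.sum_sub_distrib]; simp [hS]
    rw [this]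
    refine sum_mem fun i _ => ?_
    rw [← mul_geom_sum]
    exact Fil_mul_right hx _
  have hB : S ^ 13 ^ 2 - n ∈ Fil m 1 169 := by
    have := frob_sub h' (Nat.cast_commute n S).symm 2
    rw [(cast_powJ h' n).1] at this
    rw [← this]
    exact Fil_pow hA (13 ^ 2)
  have hC : (S ^ 13 ^ 2) ^ 25 - n ∈ Fil m 1 169 := by
    have := Fil_pow_sub (Fil_zero m 1 (S ^ 13 ^ 2)) (Fil_zero m 1 (n : UT R)) hB 24
    rw [(cast_powJ h' n).2] at this
    exact Fil_mono this (by omega)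
  rw [← pow_mul, ← J_mul] at hC
  rw [nu, e1, c1.mul_pow, ← sub_eq_zero, nsmul_eq_mul, Nat.cast_comm, nu, ← mul_sub]
  exact Fil_eq_zero hN (Fil_mul (nu_mem hx) hC le_rfl) (by omega)

theorem pow_big (h : (13 : R) = 0) {m : Ideal R} (hN : m ^ (J + 7) = ⊥) {x : UT R}
    (hx : x - 1 ∈ Fil m 1 1) : x ^ 13 ^ 4 = 1 := by
  have := frob_sub (thirteen h) (Commute.one_right x) 4
  rw [one_pow] at this
  rw [← sub_eq_zero, ← this]
  exact Fil_eq_zero hN (Fil_pow hx _) (by rw [J_eq]; norm_num)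

end Pool.Agent.MP_394f71_al.H79
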