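import Pool.Agent.MP_394f71_al.H79.Filt

set_option autoImplicit false

namespace Pool.Agent.MP_394f71_al.H79

open UT

variable {R : Type} [CommRing R]

/-- The sum of A to the a times M times A to the b over a + b = n - 1. -/
def hsum (A : UT R) : ℕ → UT R → UT R
  | 0, _ => 0
  | n + 1, M => A * hsum A n M + M * A ^ n

/-- Iterated additive commutator. -/
def adi (z : UT R) : ℕ → UT R → UT R
  | 0, M => M
  | n + 1, M => z * adi z n M - adi z n M * z

/-- Iterated conjugation minus identity. -/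
def ddi (z z' : UT R) : ℕ → UT R → UT R
  | 0, M => M
  | n + 1, M => dd z z' (ddi z z' n M)

theorem hsum_add (A : UT R) (n : ℕ) (M M' : UT R) :
    hsum A n (M + M') = hsum A n M + hsum A n M' := by
  induction n with
  | zero => simp [hsum]
  | succ n ih => simp only [hsum, ih, mul_add, add_mul]; abel

theorem hsum_smul (A : UT R) (n : ℕ) (c : R) (M : UT R) :
    hsum A n (c • M) = c • hsum A n M := by
  induction n with
  | zero => simp [hsum]
  | succ n ih => simp only [hsum, ih, mul_smul_comm, smul_mul_assoc, smul_add]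

theorem adi_add (A : UT R) (n : ℕ) (M M' : UT R) :
    adi A n (M + M') = adi A n M + adi A n M' := by
  induction n with
  | zero => simp [adi]
  | succ n ih => simp only [adi, ih, mul_add, add_mul]; abel

theorem adi_smul (A : UT R) (n : ℕ) (c : R) (M : UT R) :
    adi A n (c • M) = c • adi A n M := by
  induction n with
  | zero => simp [adi]
  | succ n ih => simp only [adi, ih, mul_smul_comm, smul_mul_assoc, smul_sub]

/-- The defect of the key identity, without inverses. -/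
def psi (z : UT R) (n : ℕ) (M : UT R) : UT R :=
  hsum (z - 1) (n + 1) (z * M) * z ^ (n + 1) - z * adi z n M

theorem psi_add (z : UT R) (n : ℕ) (M M' : UT R) :
    psi z n (M + M') = psi z n M + psi z n M' := by
  simp only [psi, mul_add, hsum_add, adi_add, add_mul]; abel

theorem psi_smul (z : UT R) (n : ℕ) (c : R) (M : UT R) : psi z n (c • M) = c • psi z n M := by
  simp only [psi, mul_smul_comm, hsum_smul, adi_smul, smul_mul_assoc, smul_sub]

theorem map_hsum {S : Type} [CommRing S] (f : R →+* S) (A : UT R) (n : ℕ) (M : UT R) :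
    map f (hsum A n M) = hsum (map f A) n (map f M) := by
  induction n with
  | zero => simp [hsum]
  | succ n ih => simp only [hsum, map_add, map_mul, map_pow, ih]

theorem map_adi {S : Type} [CommRing S] (f : R →+* S) (A : UT R) (n : ℕ) (M : UT R) :
    map f (adi A n M) = adi (map f A) n (map f M) := by
  induction n with
  | zero => simp [adi]
  | succ n ih => simp only [adi, map_sub, map_mul, ih]

theorem map_psi {S : Type} [CommRing S] (f : R →+* S) (z : UT R) (n : ℕ) (M : UT R) :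
    map f (psi z n M) = psi (map f z) n (map f M) := by
  simp only [psi, map_sub, map_mul, map_pow, map_hsum, map_adi, map_one]

theorem mul_pow_eigen {A M : UT R} {β : R} (h : M * A = β • M) (n : ℕ) :
    M * A ^ n = β ^ n • M := by
  induction n with
  | zero => simp
  | succ n ih => rw [pow_succ, ← mul_assoc, ih, smul_mul_assoc, h, smul_smul, ← pow_succ]

theorem hsum_eigen {A M : UT R} {α β : R} (h1 : A * M = α • M) (h2 : M * A = β • M) (n : ℕ) :
    (α - β) • hsum A n M = (α ^ n - β ^ n) • M := by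
  induction n with
  | zero => simp [hsum]
  | succ n ih =>
    rw [hsum, smul_add, ← mul_smul_comm, ih, mul_smul_comm, h1, mul_pow_eigen h2, smul_smul,
      smul_smul, ← add_smul]
    congr 1; ring

theorem adi_eigen {A M : UT R} {α β : R} (h1 : A * M = α • M) (h2 : M * A = β • M) (n : ℕ) :
    adi A n M = (α - β) ^ n • M := by
  induction n with
  | zero => simp [adi]
  | succ n ih =>
    rw [adi, ih, mul_smul_comm, smul_mul_assoc, h1, h2, smul_smul, smul_smul, ← sub_smul]
    congr 1; ring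

theorem psi_eigen {z M : UT R} {α β : R} (h1 : z * M = α • M) (h2 : M * z = β • M) (n : ℕ)
    (hw : β ^ (n + 1) * ((α - 1) ^ (n + 1) - (β - 1) ^ (n + 1)) = (α - β) ^ (n + 1)) :
    (α - β) • psi z n M = 0 := by
  have k1 : (z - 1) * M = (α - 1) • M := by rw [sub_mul, one_mul, h1, sub_smul, one_smul]
  have k2 : M * (z - 1) = (β - 1) • M := by rw [mul_sub, mul_one, h2, sub_smul, one_smul]
  have k3 := hsum_eigen k1 k2 (n + 1)
  rw [sub_sub_sub_cancel_right] at k3
  rw [psi, h1, hsum_smul, adi_eigen h1 h2, smul_sub, ← smul_mul_assoc, smul_comm (α - β) α, k3,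
    smul_mul_assoc, smul_mul_assoc, mul_pow_eigen h2, mul_smul_comm, h1]
  simp only [smul_smul]
  rw [← sub_smul]
  have : α * (((α - 1) ^ (n + 1) - (β - 1) ^ (n + 1)) * β ^ (n + 1)) -
      (α - β) * ((α - β) ^ n * α) = 0 := by
    rw [mul_comm _ (β ^ (n + 1)), hw]; ring
  rw [this, zero_smul]

/-- Product of the differences of the diagonal entries. -/
def disc (a b c d : R) : R := (a - b) * (a - c) * (a - d) * (b - c) * (b - d) * (c - d)

def E1 (z : UT R) : UT R := ((z.d2 - z.d3) * (z.d2 - z.d4) * (z.d3 - z.d4)) •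
  ((z - z.d2 • 1) * (z - z.d3 • 1) * (z - z.d4 • 1))
def E2 (z : UT R) : UT R := (-((z.d1 - z.d3) * (z.d1 - z.d4) * (z.d3 - z.d4))) •
  ((z - z.d1 • 1) * (z - z.d3 • 1) * (z - z.d4 • 1))
def E3 (z : UT R) : UT R := ((z.d1 - z.d2) * (z.d1 - z.d4) * (z.d2 - z.d4)) •
  ((z - z.d1 • 1) * (z - z.d2 • 1) * (z - z.d4 • 1))
def E4 (z : UT R) : UT R := (-((z.d1 - z.d2) * (z.d1 - z.d3) * (z.d2 - z.d3))) •
  ((z - z.d1 • 1) * (z - z.d2 • 1) * (z - z.d3 • 1))

theorem E_sum (z : UT R) : E1 z + E2 z + E3 z + E4 z = disc z.d1 z.d2 z.d3 z.d4 • (1 : UT R) := by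
  ext <;> simp only [E1, E2, E3, E4, disc, add_def, sub_def, mul_def, smul_def, one_def,
    smul_eq_mul] <;> ring

theorem E1_left (z : UT R) : z * E1 z = z.d1 • E1 z := by
  ext <;> simp only [E1, sub_def, mul_def, smul_def, one_def, smul_eq_mul] <;> ring
theorem E2_left (z : UT R) : z * E2 z = z.d2 • E2 z := by
  ext <;> simp only [E2, sub_def, mul_def, smul_def, one_def, smul_eq_mul] <;> ring
theorem E3_left (z : UT R) : z * E3 z = z.d3 • E3 z := by
  ext <;> simp only [E3, sub_def, mul_def, smul_def, one_def, smul_eq_mul] <;> ring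
theorem E2_right (z : UT R) : E2 z * z = z.d2 • E2 z := by
  ext <;> simp only [E2, sub_def, mul_def, smul_def, one_def, smul_eq_mul] <;> ring
theorem E3_right (z : UT R) : E3 z * z = z.d3 • E3 z := by
  ext <;> simp only [E3, sub_def, mul_def, smul_def, one_def, smul_eq_mul] <;> ring
theorem E4_right (z : UT R) : E4 z * z = z.d4 • E4 z := by
  ext <;> simp only [E4, sub_def, mul_def, smul_def, one_def, smul_eq_mul] <;> ring

theorem E1_rows (z : UT R) : (E1 z).d2 = 0 ∧ (E1 z).a23 = 0 ∧ (E1 z).a24 = 0 ∧ (E1 z).d3 = 0 ∧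
    (E1 z).a34 = 0 ∧ (E1 z).d4 = 0 := by
  simp only [E1, sub_def, mul_def, smul_def, one_def, smul_eq_mul]
  refine ⟨?_, ?_, ?_, ?_, ?_, ?_⟩ <;> ring
theorem E2_shape (z : UT R) : (E2 z).d1 = 0 ∧ (E2 z).d3 = 0 ∧ (E2 z).a34 = 0 ∧ (E2 z).d4 = 0 := by
  simp only [E2, sub_def, mul_def, smul_def, one_def, smul_eq_mul]
  refine ⟨?_, ?_, ?_, ?_⟩ <;> ring
theorem E3_shape (z : UT R) : (E3 z).d1 = 0 ∧ (E3 z).a12 = 0 ∧ (E3 z).d2 = 0 ∧ (E3 z).d4 = 0 := by
  simp only [E3, sub_def, mul_def, smul_def, one_def, smul_eq_mul]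
  refine ⟨?_, ?_, ?_, ?_⟩ <;> ring
theorem E4_cols (z : UT R) : (E4 z).d1 = 0 ∧ (E4 z).a12 = 0 ∧ (E4 z).d2 = 0 ∧ (E4 z).a13 = 0 ∧
    (E4 z).a23 = 0 ∧ (E4 z).d3 = 0 := by
  simp only [E4, sub_def, mul_def, smul_def, one_def, smul_eq_mul]
  refine ⟨?_, ?_, ?_, ?_, ?_, ?_⟩ <;> ring

theorem E_decomp (z M : UT R) (hM : Str M) :
    (E1 z + E2 z + E3 z + E4 z) * M * (E1 z + E2 z + E3 z + E4 z) =
      E1 z * M * E2 z + E1 z * M * E3 z + E1 z * M * E4 z + E2 z * M * E3 z + E2 z * M * E4 z +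
        E3 z * M * E4 z := by
  obtain ⟨h1, h2, h3, h4⟩ := hM
  obtain ⟨a1, a2, a3, a4, a5, a6⟩ := E1_rows z
  obtain ⟨b1, b2, b3, b4⟩ := E2_shape z
  obtain ⟨c1, c2, c3, c4⟩ := E3_shape z
  obtain ⟨e1, e2, e3, e4, e5, e6⟩ := E4_cols z
  generalize E1 z = A at *
  generalize E2 z = B at *
  generalize E3 z = C at *
  generalize E4 z = D at *
  ext <;> simp only [add_def, mul_def, h1, h2, h3, h4, a1, a2, a3, a4, a5, a6, b1, b2, b3, b4,
    c1, c2, c3, c4, e1, e2, e3, e4, e5, e6] <;> ring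

theorem psi_piece {z A M B : UT R} {α β : R} (h1 : z * A = α • A) (h2 : B * z = β • B) (n : ℕ)
    (hw : β ^ (n + 1) * ((α - 1) ^ (n + 1) - (β - 1) ^ (n + 1)) = (α - β) ^ (n + 1))
    {P : R} (hP : (α - β) ∣ P) : P • psi z n (A * M * B) = 0 := by
  obtain ⟨c, rfl⟩ := hP
  have k1 : z * (A * M * B) = α • (A * M * B) := by
    rw [← mul_assoc, ← mul_assoc, h1, smul_mul_assoc, smul_mul_assoc]
  have k2 : (A * M * B) * z = β • (A * M * B) := by
    rw [mul_assoc, h2, mul_smul_comm]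
  rw [mul_comm, mul_smul, psi_eigen k1 k2 n hw, smul_zero]

/-- The additivity condition for a pair of diagonal entries. -/
def Wk (n : ℕ) (α β : R) : Prop :=
  β ^ (n + 1) * ((α - 1) ^ (n + 1) - (β - 1) ^ (n + 1)) = (α - β) ^ (n + 1)

theorem psi_disc (z M : UT R) (hM : Str M) (n : ℕ) (w12 : Wk n z.d1 z.d2) (w13 : Wk n z.d1 z.d3)
    (w14 : Wk n z.d1 z.d4) (w23 : Wk n z.d2 z.d3) (w24 : Wk n z.d2 z.d4) (w34 : Wk n z.d3 z.d4) :
    (disc z.d1 z.d2 z.d3 z.d4) ^ 3 • psi z n M = 0 := by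
  have e := E_decomp z M hM
  rw [E_sum, smul_mul_assoc, one_mul, mul_smul_comm, mul_one, smul_smul] at e
  set P := disc z.d1 z.d2 z.d3 z.d4 with hP
  have : P ^ 3 • psi z n M = P • psi z n ((P * P) • M) := by
    rw [psi_smul, smul_smul]; congr 1; ring
  rw [this, e]
  simp only [psi_add, smul_add]
  rw [psi_piece (E1_left z) (E2_right z) n w12, psi_piece (E1_left z) (E3_right z) n w13,
    psi_piece (E1_left z) (E4_right z) n w14, psi_piece (E2_left z) (E3_right z) n w23,
    psi_piece (E2_left z) (E4_right z) n w24, psi_piece (E3_left z) (E4_right z) n w34]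
  · simp
  all_goals (rw [hP, disc])
  · exact Dvd.intro_left _ rfl
  · exact Dvd.dvd.mul_right (Dvd.intro_left _ rfl) _
  · exact Dvd.dvd.mul_right (Dvd.dvd.mul_right (Dvd.intro_left _ rfl) _) _
  · exact Dvd.dvd.mul_right (Dvd.dvd.mul_right (Dvd.dvd.mul_right (Dvd.intro_left _ rfl) _) _) _
  · exact Dvd.dvd.mul_right (Dvd.dvd.mul_right (Dvd.dvd.mul_right (Dvd.dvd.mul_right
      (Dvd.intro_left _ rfl) _) _) _) _
  · exact Dvd.dvd.mul_right (Dvd.dvd.mul_right (Dvd.dvd.mul_right (Dvd.dvd.mul_right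
      (Dvd.dvd.mul_right (dvd_refl _) _) _) _) _) _

theorem ddi_mul_pow {z z' : UT R} (h2 : z' * z = 1) (n : ℕ) (M : UT R) :
    ddi z z' n M * z ^ n = adi z n M := by
  induction n with
  | zero => simp [ddi, adi]
  | succ n ih =>
    rw [ddi, adi, ← ih, dd, sub_mul, pow_succ']
    congr 1
    · calc z * ddi z z' n M * z' * (z * z ^ n) = z * ddi z z' n M * (z' * z) * z ^ n := by
            simp only [mul_assoc]
        _ = _ := by rw [h2]; simp only [mul_assoc, mul_one]
    · rw [← pow_succ', pow_succ, mul_assoc]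

/-- From the inverse-free form to the form with conjugation. -/
theorem hsum_eq_of_psi {z z' : UT R} (h1 : z * z' = 1) (h2 : z' * z = 1) (n : ℕ) (M : UT R)
    (h : psi z n M = 0) : hsum (z - 1) (n + 1) (z * M) = z * ddi z z' n M * z' := by
  rw [psi, sub_eq_zero, ← ddi_mul_pow h2] at h
  have hc : Commute z z' := h1.trans h2.symm
  have k : z ^ (n + 1) * z' ^ (n + 1) = 1 := by rw [← hc.mul_pow, h1, one_pow]
  have k' : z ^ n * z' ^ (n + 1) = z' := by
    rw [pow_succ, ← mul_assoc, ← hc.mul_pow, h1, one_pow, one_mul]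
  calc hsum (z - 1) (n + 1) (z * M)
      = hsum (z - 1) (n + 1) (z * M) * z ^ (n + 1) * z' ^ (n + 1) := by
        rw [mul_assoc, k, mul_one]
    _ = z * (ddi z z' n M * z ^ n) * z' ^ (n + 1) := by rw [h]
    _ = z * ddi z z' n M * (z ^ n * z' ^ (n + 1)) := by simp only [mul_assoc]
    _ = _ := by rw [k']

theorem hsum_mem {m : Ideal R} {μ a w : ℕ} {A M : UT R} (hA : A ∈ Fil m μ a)
    (hM : M ∈ Fil m μ w) (n : ℕ) : hsum A (n + 1) M ∈ Fil m μ (w + a * n) := by
  induction n with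
  | zero => simpa [hsum] using hM
  | succ n ih =>
    rw [hsum]
    refine add_mem (Fil_mul hA ih ?_) (Fil_mul hM (Fil_pow hA (n + 1)) le_rfl)
    rw [Nat.mul_succ]; omega

theorem adi_mem {m : Ideal R} {μ a w : ℕ} {z M : UT R} (hA : z - 1 ∈ Fil m μ a)
    (hM : M ∈ Fil m μ w) (n : ℕ) : adi z n M ∈ Fil m μ (w + a * n) := by
  induction n with
  | zero => simpa [adi] using hM
  | succ n ih =>
    have e : adi z (n + 1) M = (z - 1) * adi z n M - adi z n M * (z - 1) := by
      rw [adi, sub_mul, mul_sub, one_mul, mul_one]; abel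
    rw [e]
    refine sub_mem (Fil_mul hA ih ?_) (Fil_mul ih hA ?_) <;> rw [Nat.mul_succ] <;> omega

theorem psi_small {m : Ideal R} (hN : m ^ (J + 7) = ⊥) {z : UT R} (hz : z - 1 ∈ Fil m 13 13)
    (M : UT R) : psi z 4224 M = 0 := by
  refine Fil_eq_zero (μ := 13) (w := 13 * 4224) hN
    (sub_mem (Fil_mul_right ?_ _) (Fil_mul_left _ ?_)) (by rw [J_eq]; norm_num)
  · exact Fil_mono (hsum_mem hz (Fil_zero m 13 _) 4224) (by omega)
  · exact Fil_mono (adi_mem hz (Fil_zero m 13 _) 4224) (by omega)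

end Pool.Agent.MP_394f71_al.H79
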