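import Pool.Agent.MP_394f71_al.H79.Main

set_option autoImplicit false

namespace Pool.Agent.MP_394f71_al.H79

open UT

section words

variable {K : Type} [Group K]

def cmm (a b : K) : K := a * b * a⁻¹ * b⁻¹

def cj (t a : K) (n : ℕ) : K := t ^ n * a * (t ^ n)⁻¹

def T0 (a b d : K) : K := cmm (cmm a b) d

def Dm (t : K) (m1 m2 m3 : ℕ) (T : K → K → K → K) (a b d : K) : K :=
  T (cj t a m1) (cj t b m2) (cj t d m3) * (T a b d)⁻¹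

def law (t a b d : K) : K := Dm t 2 4 3 (Dm t 4 2 3 (Dm t 4 3 2 (Dm t 3 4 2 T0))) a b d

def law7 (f : ℕ → K) : K := law (f 0) (cmm (f 1) (f 2)) (cmm (f 3) (f 4)) (cmm (f 5) (f 6))

theorem map_law7 {L : Type} [Group L] (φ : K →* L) (f : ℕ → K) :
    φ (law7 f) = law7 (fun i => φ (f i)) := by
  simp only [law7, law, Dm, T0, cj, cmm, map_mul, map_inv, map_pow]

end words

variable {R : Type} [CommRing R]

theorem inv_uni (a : (UT R)ˣ) (ha : Uni a.val) : (a⁻¹).val =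
    ⟨1, 1, 1, 1, -a.val.a12, -a.val.a23, -a.val.a34, a.val.a12 * a.val.a23 - a.val.a13,
      a.val.a23 * a.val.a34 - a.val.a24, -a.val.a14 + a.val.a12 * a.val.a24 +
        a.val.a13 * a.val.a34 - a.val.a12 * a.val.a23 * a.val.a34⟩ := by
  obtain ⟨h1, h2, h3, h4⟩ := ha
  apply Units.inv_eq_of_mul_eq_one_right
  ext <;> simp only [mul_def, one_def, h1, h2, h3, h4] <;> ring

/-- Trilinear central values on unipotent arguments. -/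
def Ty (T : (UT R)ˣ → (UT R)ˣ → (UT R)ˣ → (UT R)ˣ) (c1 c2 c3 c4 : R) : Prop :=
  ∀ a b d : (UT R)ˣ, Uni a.val → Uni b.val → Uni d.val → (T a b d).val =
    ⟨1, 1, 1, 1, 0, 0, 0, 0, 0, c1 * (a.val.a12 * b.val.a23 * d.val.a34) +
      c2 * (b.val.a12 * a.val.a23 * d.val.a34) + c3 * (d.val.a12 * a.val.a23 * b.val.a34) +
      c4 * (d.val.a12 * b.val.a23 * a.val.a34)⟩

theorem ty_T0 : Ty (R := R) T0 1 (-1) (-1) 1 := by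
  intro a b d ha hb hd
  have e : T0 a b d = a * b * a⁻¹ * b⁻¹ * d * (b * a * b⁻¹ * a⁻¹) * d⁻¹ := by
    simp only [T0, cmm]; group
  rw [e]
  simp only [Units.val_mul]
  rw [inv_uni a ha, inv_uni b hb, inv_uni d hd]
  obtain ⟨h1, h2, h3, h4⟩ := ha
  obtain ⟨k1, k2, k3, k4⟩ := hb
  obtain ⟨l1, l2, l3, l4⟩ := hd
  ext <;> simp only [mul_def, h1, h2, h3, h4, k1, k2, k3, k4, l1, l2, l3, l4, mul_one,
    one_mul] <;> ring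

def x1 (t : (UT R)ˣ) : R := t.val.d1 * (t⁻¹).val.d2
def x2 (t : (UT R)ˣ) : R := t.val.d2 * (t⁻¹).val.d3
def x3 (t : (UT R)ˣ) : R := t.val.d3 * (t⁻¹).val.d4

theorem conj_uni (t a : (UT R)ˣ) (ha : Uni a.val) : Uni (t * a * t⁻¹).val ∧
    (t * a * t⁻¹).val.a12 = x1 t * a.val.a12 ∧ (t * a * t⁻¹).val.a23 = x2 t * a.val.a23 ∧
    (t * a * t⁻¹).val.a34 = x3 t * a.val.a34 := by
  have h := t.mul_inv
  rw [mul_def, one_def, UT.mk.injEq] at h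
  obtain ⟨k1, k2, k3, k4, k5, k6, k7, -⟩ := h
  obtain ⟨h1, h2, h3, h4⟩ := ha
  simp only [Uni, Units.val_mul, mul_def, h1, h2, h3, h4, mul_one, x1, x2, x3]
  refine ⟨⟨k1, k2, k3, k4⟩, ?_, ?_, ?_⟩
  · linear_combination k5
  · linear_combination k6
  · linear_combination k7

theorem cj_uni (t a : (UT R)ˣ) (ha : Uni a.val) (n : ℕ) : Uni (cj t a n).val ∧
    (cj t a n).val.a12 = x1 t ^ n * a.val.a12 ∧ (cj t a n).val.a23 = x2 t ^ n * a.val.a23 ∧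
    (cj t a n).val.a34 = x3 t ^ n * a.val.a34 := by
  induction n with
  | zero => simpa [cj] using ha
  | succ n ih =>
    obtain ⟨i1, i2, i3, i4⟩ := ih
    have e : cj t a (n + 1) = t * cj t a n * t⁻¹ := by simp only [cj]; group
    obtain ⟨k1, k2, k3, k4⟩ := conj_uni t _ i1
    rw [e]
    refine ⟨k1, ?_, ?_, ?_⟩
    · rw [k2, i2]; ring
    · rw [k3, i3]; ring
    · rw [k4, i4]; ring

theorem ty_Dm (t : (UT R)ˣ) (m1 m2 m3 : ℕ) {T : (UT R)ˣ → (UT R)ˣ → (UT R)ˣ → (UT R)ˣ}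
    {c1 c2 c3 c4 : R} (h : Ty T c1 c2 c3 c4) : Ty (Dm t m1 m2 m3 T)
      (c1 * (x1 t ^ m1 * x2 t ^ m2 * x3 t ^ m3 - 1)) (c2 * (x2 t ^ m1 * x1 t ^ m2 * x3 t ^ m3 - 1))
      (c3 * (x2 t ^ m1 * x3 t ^ m2 * x1 t ^ m3 - 1))
      (c4 * (x3 t ^ m1 * x2 t ^ m2 * x1 t ^ m3 - 1)) := by
  intro a b d ha hb hd
  obtain ⟨a0, a1, a2, a3⟩ := cj_uni t a ha m1
  obtain ⟨b0, b1, b2, b3⟩ := cj_uni t b hb m2
  obtain ⟨e0, e1, e2, e3⟩ := cj_uni t d hd m3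
  have k := h a b d ha hb hd
  rw [Dm, Units.val_mul, inv_uni _ (by rw [k]; exact ⟨rfl, rfl, rfl, rfl⟩), h _ _ _ a0 b0 e0, k]
  ext <;> simp only [mul_def, a1, a2, a3, b1, b2, b3, e1, e2, e3] <;> ring

theorem cmm_uni (a b : (UT R)ˣ) : Uni (cmm a b).val := uni_comm a.mul_inv b.mul_inv

theorem law_ty (t : (UT R)ˣ) : ∃ c2 c3 c4 : R, Ty (law t)
    ((x1 t ^ 3 * x2 t ^ 4 * x3 t ^ 2 - 1) * (x1 t ^ 4 * x2 t ^ 3 * x3 t ^ 2 - 1) *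
      (x1 t ^ 4 * x2 t ^ 2 * x3 t ^ 3 - 1) * (x1 t ^ 2 * x2 t ^ 4 * x3 t ^ 3 - 1))
    (c2 * (x1 t ^ 2 * x2 t ^ 4 * x3 t ^ 3 - 1)) (c3 * (x1 t ^ 2 * x2 t ^ 4 * x3 t ^ 3 - 1))
    (c4 * (x1 t ^ 2 * x2 t ^ 4 * x3 t ^ 3 - 1)) := by
  have h := ty_Dm t 2 4 3 (ty_Dm t 4 2 3 (ty_Dm t 4 3 2 (ty_Dm t 3 4 2 ty_T0)))
  refine ⟨-((x2 t ^ 3 * x1 t ^ 4 * x3 t ^ 2 - 1) * (x2 t ^ 4 * x1 t ^ 3 * x3 t ^ 2 - 1) *
      (x2 t ^ 2 * x1 t ^ 4 * x3 t ^ 3 - 1)),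
    -((x2 t ^ 3 * x3 t ^ 4 * x1 t ^ 2 - 1) * (x2 t ^ 4 * x3 t ^ 2 * x1 t ^ 3 - 1) *
      (x2 t ^ 2 * x3 t ^ 4 * x1 t ^ 3 - 1)),
    (x3 t ^ 4 * x2 t ^ 3 * x1 t ^ 2 - 1) * (x3 t ^ 4 * x2 t ^ 2 * x1 t ^ 3 - 1) *
      (x3 t ^ 2 * x2 t ^ 4 * x1 t ^ 3 - 1), ?_⟩
  convert h using 1
  · rfl
  all_goals ring

theorem rel_G {S : Setup R} (t : (UT R)ˣ) (ht : InG S t.val) :
    x1 t ^ 2 * x2 t ^ 4 * x3 t ^ 3 - 1 = 0 := by
  have h := t.mul_inv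
  rw [mul_def, one_def, UT.mk.injEq] at h
  obtain ⟨-, k2, k3, k4, -⟩ := h
  obtain ⟨n, h1, h2, h3, h4⟩ := ht
  have e : t.val.d3 = t.val.d1 ^ 2 * t.val.d2 ^ 2 := by rw [h1, h2, h3]; ring
  rw [h4, one_mul] at k4
  simp only [x1, x2, x3, k4]
  generalize t.val.d1 = p1 at *
  generalize t.val.d2 = p2 at *
  generalize t.val.d3 = p3 at *
  generalize (t⁻¹).val.d2 = q2 at *
  generalize (t⁻¹).val.d3 = q3 at *
  calc (p1 * q2) ^ 2 * (p2 * q3) ^ 4 * (p3 * 1) ^ 3 - 1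
      = (p1 ^ 2 * p2 ^ 2) * q3 * (p2 * q2) ^ 2 * (p3 * q3) ^ 3 - 1 := by ring
    _ = 0 := by rw [← e, k2, k3]; ring

theorem law_G (S : Setup R) (f : ℕ → GG S) : law7 f = 1 := by
  apply Subtype.ext
  have e := map_law7 (GG S).subtype f
  rw [Subgroup.subtype_apply] at e
  rw [e]
  obtain ⟨c2, c3, c4, h⟩ := law_ty ((GG S).subtype (f 0))
  rw [rel_G ((GG S).subtype (f 0)) (f 0).2] at h
  apply Units.ext
  rw [law7, h _ _ _ (cmm_uni _ _) (cmm_uni _ _) (cmm_uni _ _)]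
  simp [one_def]

/-- A matrix with admissible diagonal as a group element. -/
def mkG (S : Setup R) (x : UT R) (hx : InG S x) : GG S :=
  ⟨Units.ofPowEqOne x (13 ^ 4) (pow_big S.h13 S.hN (hx.sub_one le_rfl)) (by norm_num), hx⟩

theorem mkG_val (S : Setup R) (x : UT R) (hx : InG S x) : ((mkG S x hx : GG S) : (UT R)ˣ).val = x :=
  rfl

theorem th_uni {x : UT R} (S : Setup R) (hx : Uni x) : th x = x := by
  rw [th, nu_of_sm (Sm.of_uni S hx), add_zero, mul_one]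

theorem cmm_sd (t e : (UT R)ˣ) (he : Uni e.val) :
    (cmm t e).val.a12 = (x1 t - 1) * e.val.a12 ∧ (cmm t e).val.a23 = (x2 t - 1) * e.val.a23 ∧
    (cmm t e).val.a34 = (x3 t - 1) * e.val.a34 := by
  obtain ⟨⟨h1, h2, h3, h4⟩, k2, k3, k4⟩ := conj_uni t e he
  rw [cmm, Units.val_mul, inv_uni e he]
  simp only [mul_def (t * e * t⁻¹).val, h1, h2, h3, h4, k2, k3, k4]
  refine ⟨?_, ?_, ?_⟩ <;> ring

/-- The scalar fake power map. -/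
def sg (r : R) : R := r * (1 + (r - 1) ^ J)

theorem pow_diag (x : UT R) (n : ℕ) : (x ^ n).d1 = x.d1 ^ n ∧ (x ^ n).d2 = x.d2 ^ n ∧
    (x ^ n).d3 = x.d3 ^ n ∧ (x ^ n).d4 = x.d4 ^ n := by
  induction n with
  | zero => simp [one_def]
  | succ n ih =>
    obtain ⟨i1, i2, i3, i4⟩ := ih
    simp only [pow_succ, mul_def, i1, i2, i3, i4, and_self]

theorem th_diag (x : UT R) : (th x).d1 = sg x.d1 ∧ (th x).d2 = sg x.d2 ∧ (th x).d3 = sg x.d3 ∧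
    (th x).d4 = sg x.d4 := by
  obtain ⟨i1, i2, i3, i4⟩ := pow_diag (x - 1) J
  simp only [th, nu, sg, mul_def, add_def, i1, i2, i3, i4]
  exact ⟨rfl, rfl, rfl, rfl⟩

/-- The non-vanishing condition that makes the law fail in the new group. -/
def NZ (S : Setup R) : Prop := ∀ y1 y2 y3 : R, y1 * sg S.t = sg S.s →
  y2 * sg (S.s ^ 2 * S.t ^ 2) = sg S.t → y3 = sg (S.s ^ 2 * S.t ^ 2) →
  (y1 ^ 3 * y2 ^ 4 * y3 ^ 2 - 1) * (y1 ^ 4 * y2 ^ 3 * y3 ^ 2 - 1) *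
    (y1 ^ 4 * y2 ^ 2 * y3 ^ 3 - 1) * (y1 ^ 2 * y2 ^ 4 * y3 ^ 3 - 1) *
    ((y1 - 1) * (y2 - 1) * (y3 - 1)) ≠ 0

theorem law_H (S : Setup R) (hnz : NZ S) : ∃ f : ℕ → HH S, law7 f ≠ 1 := by
  have u1 : Uni (⟨1, 1, 1, 1, 1, 0, 0, 0, 0, 0⟩ : UT R) := ⟨rfl, rfl, rfl, rfl⟩
  have u2 : Uni (⟨1, 1, 1, 1, 0, 1, 0, 0, 0, 0⟩ : UT R) := ⟨rfl, rfl, rfl, rfl⟩
  have u3 : Uni (⟨1, 1, 1, 1, 0, 0, 1, 0, 0, 0⟩ : UT R) := ⟨rfl, rfl, rfl, rfl⟩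
  have g0 : InG S ⟨S.s, S.t, S.s ^ 2 * S.t ^ 2, 1, 0, 0, 0, 0, 0, 0⟩ := ⟨1, by simp⟩
  set t := thH S (mkG S _ g0) with ht
  set e1 := thH S (mkG S _ (InG.of_uni S u1)) with he1
  set e2 := thH S (mkG S _ (InG.of_uni S u2)) with he2
  set e3 := thH S (mkG S _ (InG.of_uni S u3)) with he3
  have v1 : (e1 : (UT R)ˣ).val = ⟨1, 1, 1, 1, 1, 0, 0, 0, 0, 0⟩ := th_uni S u1
  have v2 : (e2 : (UT R)ˣ).val = ⟨1, 1, 1, 1, 0, 1, 0, 0, 0, 0⟩ := th_uni S u2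
  have v3 : (e3 : (UT R)ˣ).val = ⟨1, 1, 1, 1, 0, 0, 1, 0, 0, 0⟩ := th_uni S u3
  have v0 : (t : (UT R)ˣ).val = th ⟨S.s, S.t, S.s ^ 2 * S.t ^ 2, 1, 0, 0, 0, 0, 0, 0⟩ := rfl
  obtain ⟨d1, d2, d3, d4⟩ := th_diag (⟨S.s, S.t, S.s ^ 2 * S.t ^ 2, 1, 0, 0, 0, 0, 0, 0⟩ : UT R)
  rw [← v0] at d1 d2 d3 d4
  have s1 : sg (1 : R) = 1 := by simp [sg, J_eq]
  simp only [s1] at d1 d2 d3 d4
  refine ⟨fun i => if i = 2 then e1 else if i = 4 then e2 else if i = 6 then e3 else t, fun h => ?_⟩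
  have e := map_law7 (HH S).subtype
    (fun i => if i = 2 then e1 else if i = 4 then e2 else if i = 6 then e3 else t)
  rw [h, map_one] at e
  have e' : law (t : (UT R)ˣ) (cmm (t : (UT R)ˣ) e1) (cmm (t : (UT R)ˣ) e2)
      (cmm (t : (UT R)ˣ) e3) = 1 := e.symm
  obtain ⟨c2, c3, c4, hty⟩ := law_ty (t : (UT R)ˣ)
  have k := hty _ _ _ (cmm_uni (t : (UT R)ˣ) e1) (cmm_uni (t : (UT R)ˣ) e2)
    (cmm_uni (t : (UT R)ˣ) e3)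
  obtain ⟨a1, a2, a3⟩ := cmm_sd (t : (UT R)ˣ) e1 (v1 ▸ u1)
  obtain ⟨b1, b2, b3⟩ := cmm_sd (t : (UT R)ˣ) e2 (v2 ▸ u2)
  obtain ⟨l1, l2, l3⟩ := cmm_sd (t : (UT R)ˣ) e3 (v3 ▸ u3)
  rw [e', a1, a2, a3, b1, b2, b3, l1, l3, v1, v2, v3] at k
  have k14 := congrArg UT.a14 k
  simp only [Units.val_one, one_def, mul_zero, zero_mul, add_zero, mul_one] at k14
  have hi := (t : (UT R)ˣ).mul_inv
  rw [mul_def, one_def, UT.mk.injEq] at hi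
  obtain ⟨-, k2, k3, k4, -⟩ := hi
  refine hnz (x1 (t : (UT R)ˣ)) (x2 (t : (UT R)ˣ)) (x3 (t : (UT R)ˣ)) ?_ ?_ ?_ k14.symm
  · rw [x1, ← d1, ← d2]; linear_combination (t : (UT R)ˣ).val.d1 * k2
  · rw [x2, ← d2, ← d3]; linear_combination (t : (UT R)ˣ).val.d2 * k3
  · rw [d4, one_mul] at k4
    rw [x3, k4, d3, mul_one]

theorem counterexample (S : Setup R) (hnz : NZ S) :
    ¬ (∀ (G H : Type) [Group G] [Group H] (e : H ≃ G) (v : FreeGroup (Fin 2)),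
      (∀ a b : H, e (a * b) = FreeGroup.lift (![e a, e b] : Fin 2 → G) v) →
      ∀ w : FreeGroup ℕ,
        (∀ f : ℕ → G, FreeGroup.lift f w = 1) →
        ∀ f : ℕ → H, FreeGroup.lift f w = 1) := by
  intro h
  obtain ⟨e, v, hv⟩ := exists_structure S
  obtain ⟨f, hf⟩ := law_H S hnz
  have key : ∀ {K : Type} [Group K] (g : ℕ → K),
      FreeGroup.lift g (law7 FreeGroup.of) = law7 g := fun g => by
    rw [map_law7]; simp only [FreeGroup.lift_apply_of]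
  apply hf
  rw [← key]
  exact h (GG S) (HH S) e v hv (law7 FreeGroup.of) (fun g => by rw [key, law_G]) f

end Pool.Agent.MP_394f71_al.H79
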