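import Pool.Agent.MP_394f71_al.H79.Law

set_option autoImplicit false

namespace Pool.Agent.MP_394f71_al.H79

open UT

variable {R : Type} [CommRing R]

/-- The element b of m to the n is a leading term of a. -/
def Ld (m : Ideal R) (n : ℕ) (a b : R) : Prop := b ∈ m ^ n ∧ a - b ∈ m ^ (n + 1)

theorem Ld.of {m : Ideal R} {n : ℕ} {a b : R} (h1 : b ∈ m ^ n) (h2 : a - b ∈ m ^ (n + 1)) :
    Ld m n a b := ⟨h1, h2⟩

theorem Ld.mem {m : Ideal R} {n : ℕ} {a b : R} (h : Ld m n a b) : a ∈ m ^ n := by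
  have : a = (a - b) + b := by ring
  rw [this]; exact Ideal.add_mem _ (pmono h.2 (by omega)) h.1

theorem Ld.refl {m : Ideal R} {n : ℕ} {a : R} (h : a ∈ m ^ n) : Ld m n a a :=
  ⟨h, by rw [sub_self]; exact Ideal.zero_mem _⟩

theorem Ld.mul {m : Ideal R} {n k : ℕ} {a b a' b' : R} (h : Ld m n a b) (h' : Ld m k a' b') :
    Ld m (n + k) (a * a') (b * b') := by
  refine ⟨pm h.1 h'.1 le_rfl, ?_⟩
  have : a * a' - b * b' = (a - b) * a' + b * (a' - b') := by ring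
  rw [this]
  exact Ideal.add_mem _ (pm h.2 h'.mem (by omega)) (pm h.1 h'.2 (by omega))

theorem Ld.eq {m : Ideal R} {n N : ℕ} {a b : R} (h : Ld m n a b) (hN : m ^ N = ⊥)
    (hn : N ≤ n + 1) : a = b := by
  have := pmono h.2 hn
  rw [hN, Ideal.mem_bot, sub_eq_zero] at this
  exact this

theorem Ld.congr {m : Ideal R} {n k : ℕ} {a b b' : R} (h : Ld m n a b) (hk : n = k)
    (hb : b = b') : Ld m k a b' := by
  subst hk; subst hb; exact h

theorem mem_of_mul_unit {m : Ideal R} {a u : R} (hu : u - 1 ∈ m) (n : ℕ) (h : a * u ∈ m ^ n) :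
    a ∈ m ^ n := by
  induction n with
  | zero => simp
  | succ n ih =>
    have : a = a * u - a * (u - 1) := by ring
    rw [this]
    exact Ideal.sub_mem _ h (pm (b := 1) (ih (pmono h (by omega))) (by rwa [pow_one]) le_rfl)

theorem Ld.cancel {m : Ideal R} {n : ℕ} {a u b : R} (hu : u - 1 ∈ m) (h : Ld m n (a * u) b) :
    Ld m n a b := by
  refine ⟨h.1, ?_⟩
  have : a - b = (a * u - b) - a * (u - 1) := by ring
  rw [this]
  exact Ideal.sub_mem _ h.2 (pm (b := 1) (mem_of_mul_unit hu n h.mem) (by rwa [pow_one]) le_rfl)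

/-- The element u is one plus l up to second order. -/
def LL (m : Ideal R) (u l : R) : Prop := Ld m 1 (u - 1) l

theorem LL.mem {m : Ideal R} {u l : R} (h : LL m u l) : u - 1 ∈ m := by
  have := Ld.mem h
  rwa [pow_one] at this

theorem LL.one (m : Ideal R) : LL m 1 0 := ⟨Ideal.zero_mem _, by simp⟩

theorem LL.base {m : Ideal R} {x : R} (h : x ∈ m) : LL m (1 + x) x :=
  ⟨by rwa [pow_one], by simp⟩

theorem LL.congr {m : Ideal R} {u l l' : R} (h : LL m u l) (e : l = l') : LL m u l' := e ▸ h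

theorem LL.mul {m : Ideal R} {u l u' l' : R} (h : LL m u l) (h' : LL m u' l') :
    LL m (u * u') (l + l') := by
  refine ⟨Ideal.add_mem _ h.1 h'.1, ?_⟩
  have : u * u' - 1 - (l + l') = (u - 1 - l) + (u' - 1 - l') + (u - 1) * (u' - 1) := by ring
  rw [this]
  exact Ideal.add_mem _ (Ideal.add_mem _ h.2 h'.2) (pm (Ld.mem h) (Ld.mem h') le_rfl)

theorem LL.pow {m : Ideal R} {u l : R} (h : LL m u l) (n : ℕ) : LL m (u ^ n) (n * l) := by
  induction n with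
  | zero => simpa using LL.one m
  | succ n ih => rw [pow_succ]; exact (ih.mul h).congr (by push_cast; ring)

theorem LL.div {m : Ideal R} {y u l u' l' : R} (e : y * u' = u) (h : LL m u l) (h' : LL m u' l') :
    LL m y (l - l') := by
  refine ⟨Ideal.sub_mem _ h.1 h'.1, ?_⟩
  have hy : y - 1 ∈ m ^ 1 := by
    have : y - 1 = (u - 1) - y * (u' - 1) := by rw [← e]; ring
    rw [this]; exact Ideal.sub_mem _ (Ld.mem h) (Ideal.mul_mem_left _ _ (Ld.mem h'))
  have : y - 1 - (l - l') = (u - 1 - l) - (u' - 1 - l') - (y - 1) * (u' - 1) := by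
    rw [← e]; ring
  rw [this]
  exact Ideal.sub_mem _ (Ideal.sub_mem _ h.2 h'.2) (pm hy (Ld.mem h') le_rfl)

theorem LL.sub {m : Ideal R} {u l u' l' : R} (h : LL m u l) (h' : LL m u' l') :
    Ld m 1 (u - u') (l - l') := by
  refine ⟨Ideal.sub_mem _ h.1 h'.1, ?_⟩
  have : u - u' - (l - l') = (u - 1 - l) - (u' - 1 - l') := by ring
  rw [this]
  exact Ideal.sub_mem _ h.2 h'.2

theorem pow_sub_mem {m : Ideal R} {a b : ℕ} {x y : R} (hx : x ∈ m ^ a) (hy : y ∈ m ^ a)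
    (hxy : x - y ∈ m ^ b) (n : ℕ) : x ^ (n + 1) - y ^ (n + 1) ∈ m ^ (a * n + b) := by
  have hp : ∀ k : ℕ, y ^ k ∈ m ^ (a * k) := fun k => by
    rw [pow_mul]; exact Ideal.pow_mem_pow hy k
  induction n with
  | zero => simpa using hxy
  | succ n ih =>
    have e : x ^ (n + 1 + 1) - y ^ (n + 1 + 1) =
        x * (x ^ (n + 1) - y ^ (n + 1)) + (x - y) * y ^ (n + 1) := by ring
    rw [e]
    refine Ideal.add_mem _ (pm hx ih ?_) (pm hxy (hp (n + 1)) ?_)
    · rw [Nat.mul_succ]; omega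
    · omega

theorem pow_mem_mul {m : Ideal R} {a : ℕ} {x : R} (hx : x ∈ m ^ a) (k : ℕ) :
    x ^ k ∈ m ^ (a * k) := by
  rw [pow_mul]; exact Ideal.pow_mem_pow hx k

theorem frobJ (h13 : (13 : R) = 0) {m : Ideal R} {N : ℕ} (hN : m ^ N = ⊥) (hle : N ≤ J + 169)
    {a l : R} (h : Ld m 1 a l) : a ^ J = l ^ J := by
  have k := pow_mem_mul h.2 (13 ^ 2)
  rw [frob_sub h13 (Commute.all a l) 2] at k
  have k2 := pow_sub_mem (pow_mem_mul h.mem (13 ^ 2)) (pow_mem_mul h.1 (13 ^ 2)) k 24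
  rw [← pow_mul, ← pow_mul] at k2
  have k3 := pmono k2 (c := N) (by rw [J_eq] at hle; omega)
  rw [hN, Ideal.mem_bot, sub_eq_zero] at k3
  exact k3

theorem powJ_mem {m : Ideal R} {x : R} (hx : x ∈ m ^ 1) : x ^ J ∈ m ^ J := by
  have := pow_mem_mul hx J
  rwa [one_mul] at this

theorem LL.sg {m : Ideal R} {u l : R} (h : LL m u l) : LL m (sg u) l := by
  have k : LL m (1 + (u - 1) ^ J) 0 := by
    refine ⟨Ideal.zero_mem _, ?_⟩
    rw [sub_zero, add_sub_cancel_left]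
    exact pmono (powJ_mem (Ld.mem h)) (by rw [J_eq]; norm_num)
  exact (h.mul k).congr (add_zero l)

theorem wk_of (h13 : (13 : R) = 0) {m : Ideal R} {N : ℕ} (hN : m ^ N = ⊥) (hle : N ≤ J + 169)
    {α β a b : R} (h : LL m α a) (h' : LL m β b) (e : (a - b) ^ J = a ^ J - b ^ J) :
    Wk 4224 α β := by
  change β ^ J * ((α - 1) ^ J - (β - 1) ^ J) = (α - β) ^ J
  rw [frobJ h13 hN hle h, frobJ h13 hN hle h', frobJ h13 hN hle (h.sub h'), e]
  have k : β ^ J - 1 ∈ m ^ (169 : ℕ) := by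
    have k1 := pow_mem_mul (Ld.mem h') (13 ^ 2)
    rw [frob_sub h13 (Commute.one_right β) 2, one_pow] at k1
    have k2 := pow_sub_one_mem k1 25
    rw [← pow_mul, ← J_mul] at k2
    exact pmono k2 (by norm_num)
  have k4 : a ^ J - b ^ J ∈ m ^ J := Ideal.sub_mem _ (powJ_mem h.1) (powJ_mem h'.1)
  have k3 : (β ^ J - 1) * (a ^ J - b ^ J) ∈ m ^ N := pm k k4 (by rwa [add_comm])
  rw [hN, Ideal.mem_bot] at k3
  linear_combination k3

/-- The sum of twice the two variables. -/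
def UU (x y : R) : R := 2 * x + 2 * y

/-- The defect of additivity along the relation. -/
def DD (x y : R) : R := UU x y ^ J - 2 * x ^ J - 2 * y ^ J

/-- Product of the six linear forms in the law. -/
def form (x y : R) : R := (-x - 3 * y) * (2 * x - 3 * y) * (6 * x) * ((x - y) * (y - UU x y) * UU x y)

theorem LL_u {m : Ideal R} {x y : R} (hx : x ∈ m) (hy : y ∈ m) :
    LL m ((1 + x) ^ 2 * (1 + y) ^ 2) (UU x y) :=
  (((LL.base hx).pow 2).mul ((LL.base hy).pow 2)).congr (by simp [UU])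

theorem nz_lead (h13 : (13 : R) = 0) {m : Ideal R} (hN : m ^ (J + 7) = ⊥) {x y : R} (hx : x ∈ m)
    (hy : y ∈ m) {y1 y2 y3 : R} (h1 : y1 * sg (1 + y) = sg (1 + x))
    (h2 : y2 * sg ((1 + x) ^ 2 * (1 + y) ^ 2) = sg (1 + y))
    (h3 : y3 = sg ((1 + x) ^ 2 * (1 + y) ^ 2)) :
    (y1 ^ 3 * y2 ^ 4 * y3 ^ 2 - 1) * (y1 ^ 4 * y2 ^ 3 * y3 ^ 2 - 1) *
      (y1 ^ 4 * y2 ^ 2 * y3 ^ 3 - 1) * (y1 ^ 2 * y2 ^ 4 * y3 ^ 3 - 1) *
      ((y1 - 1) * (y2 - 1) * (y3 - 1)) = -(DD x y * form x y) := by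
  have a1 := (LL.base hx).sg
  have a2 := (LL.base hy).sg
  have a3 := (LL_u hx hy).sg
  have b1 := LL.div h1 a1 a2
  have b2 := LL.div h2 a2 a3
  have b3 : LL m y3 (UU x y) := h3 ▸ a3
  have f1 : Ld m 1 (y1 ^ 3 * y2 ^ 4 * y3 ^ 2 - 1) (-x - 3 * y) :=
    (((b1.pow 3).mul (b2.pow 4)).mul (b3.pow 2)).congr (by simp only [UU]; push_cast; ring)
  have f2 : Ld m 1 (y1 ^ 4 * y2 ^ 3 * y3 ^ 2 - 1) (2 * x - 3 * y) :=
    (((b1.pow 4).mul (b2.pow 3)).mul (b3.pow 2)).congr (by simp only [UU]; push_cast; ring)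
  have f3 : Ld m 1 (y1 ^ 4 * y2 ^ 2 * y3 ^ 3 - 1) (6 * x) :=
    (((b1.pow 4).mul (b2.pow 2)).mul (b3.pow 3)).congr (by simp only [UU]; push_cast; ring)
  have f4 : Ld m J (y1 ^ 2 * y2 ^ 4 * y3 ^ 3 - 1) (-DD x y) := by
    refine Ld.cancel b3.mem ?_
    have e1 : (y1 ^ 2 * y2 ^ 4 * y3 ^ 3 - 1) * y3 =
        sg (1 + x) ^ 2 * sg (1 + y) ^ 2 - sg ((1 + x) ^ 2 * (1 + y) ^ 2) := by
      rw [← h1, ← h2, ← h3]; ring
    have mA := powJ_mem (LL.base hx).1
    have mB := powJ_mem (LL.base hy).1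
    have mC := powJ_mem (LL_u hx hy).1
    have hu := Ld.mem (LL_u hx hy)
    have e2 := frobJ h13 hN (Nat.add_le_add_left (by norm_num) _) (LL_u hx hy)
    rw [e1]
    simp only [sg, add_sub_cancel_left, e2, DD]
    generalize x ^ J = A at *
    generalize y ^ J = B at *
    generalize UU x y ^ J = C at *
    have mD : C - 2 * A - 2 * B ∈ m ^ J :=
      Ideal.sub_mem _ (Ideal.sub_mem _ mC (Ideal.mul_mem_left _ _ mA)) (Ideal.mul_mem_left _ _ mB)
    refine Ld.of (neg_mem mD) ?_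
    have e3 : ((1 + x) * (1 + A)) ^ 2 * ((1 + y) * (1 + B)) ^ 2 -
        (1 + x) ^ 2 * (1 + y) ^ 2 * (1 + C) - -(C - 2 * A - 2 * B) =
        (1 + x) ^ 2 * (1 + y) ^ 2 * ((1 + B) ^ 2 * (A * A) + (4 + 2 * B) * (A * B) + B * B) -
          ((1 + x) ^ 2 * (1 + y) ^ 2 - 1) * (C - 2 * A - 2 * B) := by ring
    rw [e3]
    have hJ : J + 1 ≤ J + J := by rw [J_eq]; norm_num
    exact Ideal.sub_mem _ (Ideal.mul_mem_left _ _ (Ideal.add_mem _ (Ideal.add_mem _
      (Ideal.mul_mem_left _ _ (pm mA mA hJ)) (Ideal.mul_mem_left _ _ (pm mA mB hJ)))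
      (pm mB mB hJ))) (pm hu mD (by omega))
  have := ((((f1.mul f2).mul f3).mul f4).mul ((Ld.mul b1 b2).mul b3)).eq hN (by omega)
  rw [this, form]; ring

end Pool.Agent.MP_394f71_al.H79
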