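import Pool.Agent.MP_394f71_al.H79.Simpson

set_option autoImplicit false

namespace Pool.Agent.MP_394f71_al.H79

open UT

/-- The data and properties of the coefficient ring that the construction uses. -/
structure Setup (R : Type) [CommRing R] where
  m : Ideal R
  s : R
  t : R
  h13 : (13 : R) = 0
  hs : s - 1 ∈ m
  ht : t - 1 ∈ m
  hN : m ^ (J + 7) = ⊥
  kl : ∀ (z M : UT R) (n : ℕ), ¬ 13 ∣ n → z.d1 = s ^ n → z.d2 = t ^ n →
    z.d3 = (s ^ 2 * t ^ 2) ^ n → z.d4 = 1 → Str M → psi z 4224 M = 0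

variable {R : Type} [CommRing R]

/-- The diagonal is a power of the fixed diagonal matrix. -/
def InG (S : Setup R) (x : UT R) : Prop :=
  ∃ n : ℕ, x.d1 = S.s ^ n ∧ x.d2 = S.t ^ n ∧ x.d3 = (S.s ^ 2 * S.t ^ 2) ^ n ∧ x.d4 = 1

/-- The diagonal is trivial modulo the thirteenth power of the ideal. -/
def Sm (S : Setup R) (x : UT R) : Prop := x - 1 ∈ Fil S.m 13 13

theorem pow_sub_one_mem {m : Ideal R} {r : R} (h : r - 1 ∈ m) (n : ℕ) : r ^ n - 1 ∈ m := by
  rw [← mul_geom_sum]; exact Ideal.mul_mem_right _ _ h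

theorem mul_sub_one_mem {m : Ideal R} {r r' : R} (h : r - 1 ∈ m) (h' : r' - 1 ∈ m) :
    r * r' - 1 ∈ m := by
  have : r * r' - 1 = r * (r' - 1) + (r - 1) := by ring
  rw [this]; exact Ideal.add_mem _ (Ideal.mul_mem_left _ _ h') h

theorem Setup.hu (S : Setup R) : S.s ^ 2 * S.t ^ 2 - 1 ∈ S.m :=
  mul_sub_one_mem (pow_sub_one_mem S.hs 2) (pow_sub_one_mem S.ht 2)

theorem pow13_mem (h13 : (13 : R) = 0) {m : Ideal R} {r : R} (h : r - 1 ∈ m) {n : ℕ}
    (hn : 13 ∣ n) : r ^ n - 1 ∈ m ^ 13 := by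
  obtain ⟨k, rfl⟩ := hn
  have := frob_sub h13 (Commute.one_right (r ^ k)) 1
  rw [pow_one, one_pow, ← pow_mul, mul_comm k] at this
  rw [← this]
  exact Ideal.pow_mem_pow (pow_sub_one_mem h k) 13

theorem InG.one (S : Setup R) : InG S 1 := ⟨0, by simp [one_def]⟩

theorem InG.mul {S : Setup R} {x y : UT R} (hx : InG S x) (hy : InG S y) : InG S (x * y) := by
  obtain ⟨n, h1, h2, h3, h4⟩ := hx
  obtain ⟨k, k1, k2, k3, k4⟩ := hy
  exact ⟨n + k, by simp only [mul_def, h1, h2, h3, h4, k1, k2, k3, k4, pow_add, mul_one, and_self]⟩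

theorem InG.of_uni (S : Setup R) {x : UT R} (hx : Uni x) : InG S x := by
  obtain ⟨h1, h2, h3, h4⟩ := hx
  exact ⟨0, by simp [h1, h2, h3, h4]⟩

theorem InG.pow {S : Setup R} {x : UT R} (hx : InG S x) (n : ℕ) : InG S (x ^ n) := by
  induction n with
  | zero => rw [pow_zero]; exact InG.one S
  | succ n ih => rw [pow_succ]; exact ih.mul hx

theorem InG.sub_one {S : Setup R} {x : UT R} (hx : InG S x) {μ : ℕ} (hμ : 1 ≤ μ) :
    x - 1 ∈ Fil S.m μ 1 := by
  obtain ⟨n, h1, h2, h3, h4⟩ := hx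
  refine Fil_of_diag hμ ?_ ?_ ?_ ?_ <;> simp only [sub_def, one_def, h1, h2, h3, h4, pow_one]
  · exact pow_sub_one_mem S.hs n
  · exact pow_sub_one_mem S.ht n
  · exact pow_sub_one_mem S.hu n
  · simp

theorem Sm.of_uni (S : Setup R) {x : UT R} (hx : Uni x) : Sm S x := by
  obtain ⟨h1, h2, h3, h4⟩ := hx
  refine Fil_of_str _ le_rfl ?_
  simp only [Str, sub_def, one_def, h1, h2, h3, h4, sub_self, and_self]

theorem Sm.sub_one {S : Setup R} {x : UT R} (hx : Sm S x) : x - 1 ∈ Fil S.m 1 1 := by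
  obtain ⟨h1, h2, h3, h4, -⟩ := hx
  exact Fil_of_diag le_rfl (pmono h1 (by omega)) (pmono h2 (by omega)) (pmono h3 (by omega))
    (pmono h4 (by omega))

theorem InG.psi {S : Setup R} {z : UT R} (hz : InG S z) {M : UT R} (hM : Str M) :
    psi z 4224 M = 0 := by
  obtain ⟨n, h1, h2, h3, h4⟩ := hz
  by_cases hn : 13 ∣ n
  · refine psi_small S.hN (Fil_of_diag le_rfl ?_ ?_ ?_ ?_) M <;>
      simp only [sub_def, one_def, h1, h2, h3, h4]
    · exact pow13_mem S.h13 S.hs hn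
    · exact pow13_mem S.h13 S.ht hn
    · exact pow13_mem S.h13 S.hu hn
    · simp
  · exact S.kl z M n hn h1 h2 h3 h4 hM

theorem ddi_conj {z z' : UT R} (n : ℕ) (M : UT R) :
    z * ddi z z' n M * z' = ddi z z' n (z * M * z') := by
  induction n with
  | zero => rfl
  | succ n ih => rw [ddi, ddi, ← ih, dd, dd, mul_sub, sub_mul]

theorem ddi_succ' (z z' : UT R) (n : ℕ) (M : UT R) :
    ddi z z' (n + 1) M = ddi z z' n (dd z z' M) := by
  induction n with
  | zero => rfl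
  | succ n ih => rw [ddi, ih, ddi]

theorem ddi_mem {m : Ideal R} {μ w : ℕ} {z z' M : UT R} (hz : z * z' = 1)
    (h1 : z - 1 ∈ Fil m μ 1) (hM : M ∈ Fil m μ w) (n : ℕ) : ddi z z' n M ∈ Fil m μ (w + n) := by
  induction n with
  | zero => exact hM
  | succ n ih => exact Fil_mono (dd_mem hz h1 ih) (by omega)

theorem ddi_congr {m : Ideal R} {z z' y y' M N : UT R} (hz : z * z' = 1) (hy : y * y' = 1)
    (h1 : z - 1 ∈ Fil m 1 1) (h2 : y - 1 ∈ Fil m 1 1) (h3 : z - y ∈ Fil m 1 13)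
    (h4 : z' - y' ∈ Fil m 1 13) (h5 : M - N ∈ Fil m 1 13) (h6 : N ∈ Fil m 1 1) (n : ℕ) :
    ddi z z' n M - ddi y y' n N ∈ Fil m 1 (13 + n) := by
  induction n with
  | zero => exact h5
  | succ n ih =>
    have hN := ddi_mem hy h2 h6 n
    have e : ddi z z' (n + 1) M - ddi y y' (n + 1) N =
        dd z z' (ddi z z' n M - ddi y y' n N) +
          ((z - y) * ddi y y' n N * z' + y * ddi y y' n N * (z' - y')) := by
      simp only [ddi, dd, mul_sub, sub_mul]
      abel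
    rw [e]
    exact add_mem (Fil_mono (dd_mem hz h1 ih) (by omega))
      (add_mem (Fil_mul_right (Fil_mul h3 hN (by omega)) _)
        (Fil_mul (Fil_mul_left _ hN) h4 (by omega)))

theorem sub_mem_of_map {m : Ideal R} {x y : UT R}
    (h : UT.map (Ideal.Quotient.mk (m ^ 13)) x = UT.map (Ideal.Quotient.mk (m ^ 13)) y) :
    x - y ∈ Fil m 1 13 := by
  rw [map_def, map_def, UT.mk.injEq] at h
  simp only [Ideal.Quotient.eq] at h
  obtain ⟨h1, h2, h3, h4, h5, h6, h7, h8, h9, h10⟩ := h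
  exact ⟨h1, h2, h3, h4, pmono h5 (by omega), pmono h6 (by omega), pmono h7 (by omega),
    pmono h8 (by omega), pmono h9 (by omega), pmono h10 (by omega)⟩

/-- The seed at time t. -/
def seed (z z' e e' : UT R) (t : ℕ) : UT R :=
  (z * e ^ t) * kp e e' ((z * e ^ t) * e * (e' ^ t * z')) ((z * e ^ t) * e' * (e' ^ t * z')) *
    (e' ^ t * z')

/-- The term of the quadrature formula at time t. -/
def Tm (z z' e e' : UT R) (t : ℕ) : UT R :=
  ddi (z * e ^ t) (e' ^ t * z') 4223 (seed z z' e e' t)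

theorem path_inv {z z' e e' : UT R} (hz : z * z' = 1) (hz' : z' * z = 1) (he : e * e' = 1)
    (he' : e' * e = 1) (t : ℕ) :
    (z * e ^ t) * (e' ^ t * z') = 1 ∧ (e' ^ t * z') * (z * e ^ t) = 1 := by
  have hc : Commute e e' := he.trans he'.symm
  have k1 : e ^ t * e' ^ t = 1 := by rw [← hc.mul_pow, he, one_pow]
  have k2 : e' ^ t * e ^ t = 1 := by rw [← hc.symm.mul_pow, he', one_pow]
  constructor
  · rw [mul_assoc, ← mul_assoc (e ^ t), k1, one_mul, hz]
  · rw [mul_assoc, ← mul_assoc z', hz', one_mul, k2]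

theorem seed_ex (h : (13 : R) = 0) {z z' a : UT R} (hz : z * z' = 1) (hz' : z' * z = 1)
    (ha : Str a) (t : ℕ) : seed z z' (ex a) (ex (-a)) t =
      (z * ex a ^ t) * dd (z * ex a ^ t) (ex (-a) ^ t * z') a * (ex (-a) ^ t * z') := by
  obtain ⟨k1, k2⟩ := path_inv hz hz' (ex_neg h a ha) (ex_neg' h a ha) t
  rw [seed]
  generalize z * ex a ^ t = y at *
  generalize ex (-a) ^ t * z' = y' at *
  rw [ex_conj y y' a k1 k2, ex_conj y y' (-a) k1 k2, mul_neg, neg_mul,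
    kp_ex h a _ ha ((ha.mul_left y).mul_right y'), dd]

theorem fd_eq (S : Setup R) {z z' a : UT R} (hz : z * z' = 1) (hz' : z' * z = 1) (hG : InG S z)
    (ha : Str a) (t : ℕ) : fd z a J t = Tm z z' (ex a) (ex (-a)) t := by
  obtain ⟨k1, k2⟩ := path_inv hz hz' (ex_neg S.h13 a ha) (ex_neg' S.h13 a ha) t
  have hy : InG S (z * ex a ^ t) := hG.mul ((InG.of_uni S (ex_uni ha)).pow t)
  rw [Tm, seed_ex S.h13 hz hz' ha, fd, ← ex_pow S.h13 a ha, ← ddi_conj, ← ddi_succ']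
  exact hsum_eq_of_psi k1 k2 4224 a (hy.psi ha)

theorem local_pt (S : Setup R) {z z' e e' : UT R} (hz : z * z' = 1) (hz' : z' * z = 1)
    (he : e * e' = 1) (he' : e' * e = 1) (hG : InG S z) (hE : InG S e) (hS : Sm S e) :
    nu (z * e) - nu z = 11 • (Tm z z' e e' 0 + 4 • Tm z z' e e' 7 + Tm z z' e e' 1) := by
  set u : UT R := ⟨1, 1, 1, 1, e.a12, e.a23, e.a34, e.a13, e.a24, e.a14⟩ with hu
  have huu : Uni u := ⟨rfl, rfl, rfl, rfl⟩
  have ha : Str (lg u) := lg_str huu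
  have hex : ex (lg u) = u := ex_lg S.h13 huu
  set a := lg u with haa
  set ρ := UT.map (Ideal.Quotient.mk (S.m ^ 13)) with hρ
  have r1 : ρ e = ρ (ex a) := by
    rw [hex, hρ, map_def, map_def, UT.mk.injEq]
    obtain ⟨h1, h2, h3, h4, -⟩ := hS
    simp only [Ideal.Quotient.eq, hu, sub_self, Ideal.zero_mem, and_true]
    exact ⟨h1, h2, h3, h4⟩
  have r2 : ρ e' = ρ (ex (-a)) := by
    calc ρ e' = ρ e' * ρ (ex a * ex (-a)) := by rw [ex_neg S.h13 a ha, map_one, mul_one]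
      _ = ρ (e' * e) * ρ (ex (-a)) := by rw [map_mul, map_mul, r1, mul_assoc]
      _ = _ := by rw [he', map_one, one_mul]
  have hT : ∀ t : ℕ, Tm z z' e e' t = Tm z z' (ex a) (ex (-a)) t := fun t => by
    obtain ⟨k1, k2⟩ := path_inv hz hz' (ex_neg S.h13 a ha) (ex_neg' S.h13 a ha) t
    obtain ⟨l1, l2⟩ := path_inv hz hz' he he' t
    rw [← sub_eq_zero]
    refine Fil_eq_zero S.hN (ddi_congr l1 k1 ((hG.mul (hE.pow t)).sub_one le_rfl)
      ((hG.mul ((InG.of_uni S (ex_uni ha)).pow t)).sub_one le_rfl) (sub_mem_of_map ?_)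
      (sub_mem_of_map ?_) (sub_mem_of_map ?_) ?_ 4223) (by rw [J_eq]; norm_num)
    · rw [← hρ, map_mul, map_mul, map_pow, map_pow, r1]
    · rw [← hρ, map_mul, map_mul, map_pow, map_pow, r2]
    · simp only [seed, map_mul, map_pow, map_kp]
      rw [← hρ, r1, r2]
    · rw [seed_ex S.h13 hz hz' ha]
      refine Fil_of_str _ le_rfl (Str.mul_right (Str.mul_left ?_ _) _)
      exact ((ha.mul_left _).mul_right _).sub ha
  have hn : nu (z * e) = nu (z * ex a) := by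
    refine nu_congr S.hN ((hG.mul hE).sub_one le_rfl)
      ((hG.mul (InG.of_uni S (ex_uni ha))).sub_one le_rfl) (Fil_mono (sub_mem_of_map ?_) (by omega))
    rw [← hρ, map_mul, map_mul, r1]
  rw [hn, hT, hT, hT, ← fd_eq S hz hz' hG ha, ← fd_eq S hz hz' hG ha, ← fd_eq S hz hz' hG ha]
  exact simpson S.h13 z ha J

end Pool.Agent.MP_394f71_al.H79
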