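import Pool.Agent.MP_394f71_al.H79.Words

set_option autoImplicit false

namespace Pool.Agent.MP_394f71_al.H79

open UT

variable {R : Type} [CommRing R]

theorem iter_ddi {S : Setup R} (u : Wd) {f : Pt S → UT R} (hf : f ∈ WW S) (n : ℕ) :
    (fun p => ddi (vl p u) (vl p u⁻¹) n (f p)) ∈ step^[n] (WW S) := by
  induction n with
  | zero => exact hf
  | succ n ih =>
    rw [Function.iterate_succ_apply']
    exact mem_step u ih

theorem uni_comm {x x' y y' : UT R} (hx : x * x' = 1) (hy : y * y' = 1) :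
    Uni (x * y * x' * y') := by
  rw [mul_def, one_def, UT.mk.injEq] at hx hy
  obtain ⟨h1, h2, h3, h4, -⟩ := hx
  obtain ⟨k1, k2, k3, k4, -⟩ := hy
  simp only [Uni, mul_def]
  refine ⟨?_, ?_, ?_, ?_⟩
  · linear_combination (y.d1 * y'.d1) * h1 + k1
  · linear_combination (y.d2 * y'.d2) * h2 + k2
  · linear_combination (y.d3 * y'.d3) * h3 + k3
  · linear_combination (y.d4 * y'.d4) * h4 + k4

theorem lg_comm_mem (S : Setup R) (u w : Wd) :
    (fun p : Pt S => lg (vl p u * vl p w * vl p u⁻¹ * vl p w⁻¹)) ∈ WW S :=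
  ⟨fun p => lg_str (uni_comm (vl_inv p u) (vl_inv p w)), u * w * u⁻¹ * w⁻¹, fun p => by
    rw [ex_lg S.h13 (uni_comm (vl_inv p u) (vl_inv p w)), map_mul, map_mul, map_mul]⟩

theorem seed_mem (S : Setup R) (z e : Wd) (t : ℕ) :
    (fun p : Pt S => seed (vl p z) (vl p z⁻¹) (vl p e) (vl p e⁻¹) t) ∈ WW S := by
  have hk := lg_comm_mem S (z * e ^ t) e
  have h1 := Dop_mem e hk
  have h2 := Dop_mem e h1
  have h3 := Dop_mem ((z * e ^ t) * e * (z * e ^ t)⁻¹) h1
  have := Ad_mem (z * e ^ t) (add_mem (add_mem (sub_mem hk (nsmul_mem h1 7)) (nsmul_mem h2 8)) h3)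
  convert this using 1
  funext p
  simp only [seed, kp, Ad, Dop, Pi.add_apply, Pi.sub_apply, Pi.smul_apply, map_mul, map_pow,
    mul_inv_rev, inv_inv, ← inv_pow, mul_assoc]

theorem Tm_mem (S : Setup R) (z e : Wd) (t : ℕ) {k : ℕ} (hk : k = 4223) :
    (fun p : Pt S => Tm (vl p z) (vl p z⁻¹) (vl p e) (vl p e⁻¹) t) ∈ step^[k] (WW S) := by
  have := iter_ddi (z * e ^ t) (seed_mem S z e t) k
  convert this using 1
  funext p
  simp only [Tm, map_mul, map_pow, mul_inv_rev, ← inv_pow, hk]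

theorem local_fn (S : Setup R) (z e : Wd) {k : ℕ} (hk : k = 4223) :
    ∃ f ∈ step^[k] (WW S), ∀ p : Pt S, Sm S (vl p e) → f p = nu (vl p (z * e)) - nu (vl p z) := by
  refine ⟨_, nsmul_mem (add_mem (add_mem (Tm_mem S z e 0 hk) (nsmul_mem (Tm_mem S z e 7 hk) 4))
    (Tm_mem S z e 1 hk)) 11, fun p hp => ?_⟩
  rw [map_mul, local_pt S (vl_inv p z) (vl_inv' p z) (vl_inv p e) (vl_inv' p e) (vl_inG p z)
    (vl_inG p e) hp]
  rfl

/-- The defect of the fake power map. -/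
def om {S : Setup R} (p : Pt S) : UT R :=
  nu (vl p (wy⁻¹ * wx * wy)) + nu (vl p wy) - nu (vl p (wx * wy))

theorem nu_of_sm {S : Setup R} {x : UT R} (hx : Sm S x) : nu x = 0 :=
  Fil_eq_zero S.hN (Fil_pow hx J) (by rw [J_eq]; norm_num)

theorem om_local (S : Setup R) (c : Fin 14) {k : ℕ} (hk : k = 4223) :
    ∃ f ∈ step^[k] (WW S), ∀ p : Pt S, Om c p → f p = om p := by
  by_cases hc : c.val < 13
  · obtain ⟨f1, h1, e1⟩ := local_fn S wx (wx⁻¹ * wy⁻¹ * wx * wy) hk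
    obtain ⟨f2, h2, e2⟩ := local_fn S (wx ^ c.val) (yw c) hk
    obtain ⟨f3, h3, e3⟩ := local_fn S (wx ^ (c.val + 1)) (yw c) hk
    refine ⟨f1 + f2 - f3, sub_mem (add_mem h1 h2) h3, fun p hp => ?_⟩
    have s1 : Sm S (vl p (wx⁻¹ * wy⁻¹ * wx * wy)) := by
      rw [map_mul, map_mul, map_mul]
      exact Sm.of_uni S (uni_comm (vl_inv' p wx) (vl_inv' p wy))
    have w1 : wx * (wx⁻¹ * wy⁻¹ * wx * wy) = wy⁻¹ * wx * wy := by group
    have w2 : wx ^ c.val * yw c = wy := by rw [yw, if_pos hc]; group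
    have w3 : wx ^ (c.val + 1) * yw c = wx * wy := by rw [yw, if_pos hc]; group
    have hx := (vl_inG p wx).sub_one (μ := 1) le_rfl
    rw [Pi.sub_apply, Pi.add_apply, e1 p s1, e2 p hp, e3 p hp, w1, w2, w3, map_pow, map_pow,
      nu_pow S.h13 S.hN hx, nu_pow S.h13 S.hN hx, om, succ_nsmul]
    abel
  · obtain ⟨f1, h1, e1⟩ := local_fn S wy (wy⁻¹ * wx * wy) hk
    refine ⟨-f1, neg_mem h1, fun p hp => ?_⟩
    have s1 : Sm S (vl p (wy⁻¹ * wx * wy)) := by
      rw [Om, yw, if_neg hc] at hp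
      have e : vl p (wy⁻¹ * wx * wy) - 1 = vl p wy⁻¹ * (vl p wx - 1) * vl p wy := by
        rw [map_mul, map_mul, mul_sub, sub_mul, mul_one, vl_inv']
      rw [Sm, e]
      exact Fil_mul_right (Fil_mul_left _ hp) _
    have w1 : wy * (wy⁻¹ * wx * wy) = wx * wy := by group
    rw [Pi.neg_apply, e1 p s1, w1, om, nu_of_sm s1]
    abel

theorem pow_congr13 (h13 : (13 : R) = 0) {m : Ideal R} {r : R} (h : r - 1 ∈ m) {a b : ℕ}
    (hab : a % 13 = b % 13) : r ^ a - r ^ b ∈ m ^ 13 := by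
  have k : ∀ a : ℕ, r ^ a - r ^ (a % 13) ∈ m ^ 13 := fun a => by
    have e : r ^ a - r ^ (a % 13) = r ^ (a % 13) * (r ^ (13 * (a / 13)) - 1) := by
      rw [mul_sub, mul_one, ← pow_add, Nat.mod_add_div]
    rw [e]
    exact Ideal.mul_mem_left _ _ (pow13_mem h13 h (Dvd.intro _ rfl))
  have := sub_mem (k a) (k b)
  rwa [hab, sub_sub_sub_cancel_right] at this

theorem exists_class (n k : ℕ) (hn : ¬ 13 ∣ n) : ∃ c : ℕ, c < 13 ∧ k % 13 = (n * c) % 13 := by
  have h : ∀ a < 13, a ≠ 0 → ∀ b < 13, ∃ c < 13, b = (a * c) % 13 := by decide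
  obtain ⟨c, hc, e⟩ := h (n % 13) (Nat.mod_lt _ (by norm_num)) (by omega) (k % 13)
    (Nat.mod_lt _ (by norm_num))
  exact ⟨c, hc, by rw [e, Nat.mod_mul_mod]⟩

theorem cover {S : Setup R} (p : Pt S) : ∃ c : Fin 14, Om c p := by
  obtain ⟨n, h1, h2, h3, h4⟩ := vl_inG p wx
  obtain ⟨k, k1, k2, k3, k4⟩ := vl_inG p wy
  by_cases hn : 13 ∣ n
  · refine ⟨13, ?_⟩
    rw [Om, yw, if_neg (by decide)]
    refine Fil_of_diag le_rfl ?_ ?_ ?_ ?_ <;> simp only [sub_def, one_def, h1, h2, h3, h4]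
    · exact pow13_mem S.h13 S.hs hn
    · exact pow13_mem S.h13 S.ht hn
    · exact pow13_mem S.h13 S.hu hn
    · simp
  · obtain ⟨c, hc, e⟩ := exists_class n k hn
    refine ⟨⟨c, by omega⟩, ?_⟩
    rw [Om, yw, if_pos hc]
    have e0 : vl p ((wx ^ c)⁻¹ * wy) - 1 = vl p (wx ^ c)⁻¹ * (vl p wy - vl p wx ^ c) := by
      rw [map_mul, mul_sub, ← map_pow, vl_inv']
    rw [Sm, e0]
    refine Fil_mul_left _ ?_
    have hp : ∀ c : ℕ, (vl p wx ^ c).d1 = S.s ^ (n * c) ∧ (vl p wx ^ c).d2 = S.t ^ (n * c) ∧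
        (vl p wx ^ c).d3 = (S.s ^ 2 * S.t ^ 2) ^ (n * c) ∧ (vl p wx ^ c).d4 = 1 := fun c => by
      induction c with
      | zero => simp [one_def]
      | succ c ih =>
        obtain ⟨i1, i2, i3, i4⟩ := ih
        simp only [pow_succ (vl p wx), mul_def, i1, i2, i3, i4, h1, h2, h3, h4, Nat.mul_succ,
          pow_add, mul_one, and_self]
    obtain ⟨i1, i2, i3, i4⟩ := hp c
    refine Fil_of_diag le_rfl ?_ ?_ ?_ ?_ <;>
      simp only [sub_def, i1, i2, i3, i4, k1, k2, k3, k4]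
    · exact pow_congr13 S.h13 S.hs e
    · exact pow_congr13 S.h13 S.ht e
    · exact pow_congr13 S.h13 S.hu e
    · simp

theorem om_mem (S : Setup R) : (om : Pt S → UT R) ∈ WW S := by
  have h : ∀ c : Fin 14, ∃ g ∈ WW S, (∀ p, Om c p → g p = om p) ∧
      ∀ d, d ≠ c → ∀ p, Om d p → g p = 0 := fun c => by
    obtain ⟨k, hk⟩ : ∃ k : ℕ, k = 4223 := ⟨_, rfl⟩
    obtain ⟨f, hf, e⟩ := om_local S c hk
    obtain ⟨g, hg, e1, e2⟩ := patch c hk hf
    exact ⟨g, hg, fun p hp => (e1 p hp).trans (e p hp), e2⟩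
  choose g hg e1 e2 using h
  have : (om : Pt S → UT R) = ∑ c, g c := by
    funext p
    obtain ⟨c, hc⟩ := cover p
    rw [Finset.sum_apply, Finset.sum_eq_single c (fun d _ hd => e2 d c hd.symm p hc)
      (fun h => absurd (Finset.mem_univ c) h), e1 c p hc]
  rw [this]
  exact sum_mem fun c _ => hg c

/-- The fake power map. -/
def th (x : UT R) : UT R := x * (1 + nu x)

theorem nu_mul_nu (S : Setup R) {a b : UT R} (ha : a ∈ Fil S.m 1 J) (hb : b ∈ Fil S.m 1 J) :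
    a * b = 0 := Fil_eq_zero S.hN (Fil_mul ha hb le_rfl) (by rw [J_eq]; norm_num)

theorem exists_word (S : Setup R) : ∃ v : Wd, ∀ p : Pt S,
    th (vl p v) = th (vl p wx) * th (vl p wy) := by
  obtain ⟨-, u, hu⟩ := om_mem S
  refine ⟨wx * wy * u, fun p => ?_⟩
  have m1 := nu_mem ((vl_inG p (wy⁻¹ * wx * wy)).sub_one (μ := 1) le_rfl)
  have m2 := nu_mem ((vl_inG p wy).sub_one (μ := 1) le_rfl)
  have m3 := nu_mem ((vl_inG p (wx * wy)).sub_one (μ := 1) le_rfl)
  have m4 : om p ∈ Fil S.m 1 J := sub_mem (add_mem m1 m2) m3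
  have e1 : vl p (wx * wy * u) = vl p (wx * wy) * (1 + om p) := by
    rw [map_mul, hu, ex_of_sq (nu_mul_nu S m4 m4)]
  have e2 : nu (vl p (wx * wy * u)) = nu (vl p (wx * wy)) := by
    refine nu_congr S.hN ((vl_inG p _).sub_one le_rfl) ((vl_inG p _).sub_one le_rfl) ?_
    rw [e1, mul_add, mul_one, add_sub_cancel_left]
    exact Fil_mul_left _ (Fil_mono m4 (by rw [J_eq]; norm_num))
  have e3 : nu (vl p (wy⁻¹ * wx * wy)) = vl p wy⁻¹ * nu (vl p wx) * vl p wy := by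
    rw [map_mul, map_mul, nu_conj (vl_inv' p wy) (vl_inv p wy)]
  have e4 : (1 + om p) * (1 + nu (vl p (wx * wy))) =
      (1 + nu (vl p (wy⁻¹ * wx * wy))) * (1 + nu (vl p wy)) := by
    rw [add_mul, mul_add (om p), nu_mul_nu S m4 m3, add_mul, mul_add (nu _), nu_mul_nu S m1 m2, om]
    simp only [mul_one, one_mul, add_zero]
    abel
  rw [th, e2, e1, mul_assoc, e4, e3, map_mul, th, th]
  have e5 : vl p wy * (1 + vl p wy⁻¹ * nu (vl p wx) * vl p wy) = (1 + nu (vl p wx)) * vl p wy := by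
    rw [mul_add, add_mul, mul_one, one_mul, ← mul_assoc, ← mul_assoc, vl_inv, one_mul]
  calc vl p wx * vl p wy * ((1 + vl p wy⁻¹ * nu (vl p wx) * vl p wy) * (1 + nu (vl p wy)))
      = vl p wx * (vl p wy * (1 + vl p wy⁻¹ * nu (vl p wx) * vl p wy)) * (1 + nu (vl p wy)) := by
        simp only [mul_assoc]
    _ = _ := by rw [e5]; simp only [mul_assoc]

theorem th_inj (S : Setup R) {x y : UT R} (hx : InG S x) (hy : InG S y) (h : th x = th y) :
    x = y := by
  have m1 := nu_mem (hx.sub_one (μ := 1) le_rfl)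
  have m2 := nu_mem (hy.sub_one (μ := 1) le_rfl)
  have e : x - y = y * nu y - x * nu x := by
    rw [th, th, mul_add, mul_add, mul_one, mul_one] at h
    rw [sub_eq_sub_iff_add_eq_add, h, add_comm]
  have e2 : nu x = nu y := by
    refine nu_congr S.hN (hx.sub_one le_rfl) (hy.sub_one le_rfl) ?_
    rw [e]
    exact Fil_mono (sub_mem (Fil_mul_left _ m2) (Fil_mul_left _ m1)) (by rw [J_eq]; norm_num)
  have k : (1 + nu y) * (1 - nu y) = 1 := by
    rw [add_mul, one_mul, mul_sub, mul_one, nu_mul_nu S m2 m2]; abel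
  rw [th, th, e2] at h
  calc x = x * (1 + nu y) * (1 - nu y) := by rw [mul_assoc, k, mul_one]
    _ = y := by rw [h, mul_assoc, k, mul_one]

theorem th_sub_one (S : Setup R) {x : UT R} (hx : InG S x) : th x - 1 ∈ Fil S.m 1 1 := by
  have e : th x - 1 = (x - 1) + x * nu x := by rw [th, mul_add, mul_one]; abel
  rw [e]
  exact add_mem (hx.sub_one le_rfl)
    (Fil_mul_left _ (Fil_mono (nu_mem (hx.sub_one (μ := 1) le_rfl)) (by rw [J_eq]; norm_num)))

theorem vl_wx {S : Setup R} (p : Pt S) : vl p wx = (p.1 : (UT R)ˣ).val := by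
  rw [vl_def, wx, FreeGroup.lift_apply_of]; rfl

theorem vl_wy {S : Setup R} (p : Pt S) : vl p wy = (p.2 : (UT R)ˣ).val := by
  rw [vl_def, wy, FreeGroup.lift_apply_of]; rfl

/-- The image of the group under the fake power map. -/
def HH (S : Setup R) : Subgroup (UT R)ˣ :=
  have hmul : ∀ {a b : (UT R)ˣ}, (∃ g : GG S, a.val = th (g : (UT R)ˣ).val) →
      (∃ g : GG S, b.val = th (g : (UT R)ˣ).val) →
      ∃ g : GG S, (a * b).val = th (g : (UT R)ˣ).val := by
    rintro a b ⟨g, hg⟩ ⟨h, hh⟩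
    obtain ⟨v, hv⟩ := exists_word S
    refine ⟨FreeGroup.lift ![g, h] v, ?_⟩
    have := hv (g, h)
    rw [vl_wx, vl_wy, vl_def] at this
    rw [Units.val_mul, hg, hh, this]
  have hone : ∃ g : GG S, (1 : (UT R)ˣ).val = th (g : (UT R)ˣ).val :=
    ⟨1, by simp [th, nu, J_eq]⟩
  { carrier := {x | ∃ g : GG S, x.val = th (g : (UT R)ˣ).val}
    one_mem' := hone
    mul_mem' := hmul
    inv_mem' := fun {x} hx => by
      obtain ⟨g, hg⟩ := hx
      rw [unit_inv_eq S x (hg ▸ th_sub_one S g.2)]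
      generalize 13 ^ 4 - 1 = n
      induction n with
      | zero => rw [pow_zero]; exact hone
      | succ n ih => rw [pow_succ]; exact hmul ih ⟨g, hg⟩ }

/-- The fake power of a group element, as a unit. -/
def thU (S : Setup R) (g : GG S) : (UT R)ˣ :=
  (g : (UT R)ˣ) * ⟨1 + nu (g : (UT R)ˣ).val, 1 - nu (g : (UT R)ˣ).val, by
    have m := nu_mem (InG.sub_one (S := S) g.2 (μ := 1) le_rfl)
    rw [add_mul, one_mul, mul_sub, mul_one, nu_mul_nu S m m]; abel, by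
    have m := nu_mem (InG.sub_one (S := S) g.2 (μ := 1) le_rfl)
    rw [sub_mul, one_mul, mul_add, mul_one, nu_mul_nu S m m]; abel⟩

theorem thU_val (S : Setup R) (g : GG S) : (thU S g).val = th (g : (UT R)ˣ).val := rfl

def thH (S : Setup R) (g : GG S) : HH S := ⟨thU S g, g, rfl⟩

theorem thH_bij (S : Setup R) : Function.Bijective (thH S) := by
  constructor
  · intro g h e
    have : th (g : (UT R)ˣ).val = th (h : (UT R)ˣ).val :=
      congrArg (fun x : HH S => (x : (UT R)ˣ).val) e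
    exact Subtype.ext (Units.ext (th_inj S g.2 h.2 this))
  · rintro ⟨x, g, hg⟩
    exact ⟨g, Subtype.ext (Units.ext hg.symm)⟩

theorem exists_structure (S : Setup R) : ∃ (e : HH S ≃ GG S) (v : FreeGroup (Fin 2)),
    ∀ a b : HH S, e (a * b) = FreeGroup.lift (![e a, e b] : Fin 2 → GG S) v := by
  obtain ⟨v, hv⟩ := exists_word S
  refine ⟨(Equiv.ofBijective _ (thH_bij S)).symm, v, fun a b => ?_⟩
  obtain ⟨g, rfl⟩ := (thH_bij S).2 a
  obtain ⟨h, rfl⟩ := (thH_bij S).2 b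
  rw [Equiv.symm_apply_eq]
  have e1 : ∀ x : GG S, (Equiv.ofBijective _ (thH_bij S)).symm (thH S x) = x := fun x =>
    (Equiv.ofBijective _ (thH_bij S)).symm_apply_apply x
  rw [e1, e1]
  have := hv (g, h)
  rw [vl_wx, vl_wy, vl_def] at this
  exact Subtype.ext (Units.ext this.symm)

end Pool.Agent.MP_394f71_al.H79
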