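import Pool.Agent.MP_394f71_al.H79.Quot

set_option autoImplicit false

namespace Pool.Agent.MP_394f71_al.H79

open MvPolynomial

/-- Polynomials in two variables over the field with thirteen elements. -/
abbrev PA : Type := MvPolynomial (Fin 2) (ZMod 13)

/-- Exponent vector with two given entries. -/
noncomputable def ex2 (a b : ℕ) : Fin 2 →₀ ℕ := Finsupp.single 0 a + Finsupp.single 1 b

theorem ex2_0 (a b : ℕ) : ex2 a b 0 = a := by simp [ex2]

theorem ex2_1 (a b : ℕ) : ex2 a b 1 = b := by simp [ex2]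

theorem ex2_ext {d e : Fin 2 →₀ ℕ} (h0 : d 0 = e 0) (h1 : d 1 = e 1) : d = e := by
  ext i; fin_cases i
  · exact h0
  · exact h1

theorem ex2_degree (a b : ℕ) : (ex2 a b).degree = a + b := by
  rw [Finsupp.degree_eq_sum, Fin.sum_univ_two, ex2_0, ex2_1]

/-- A linear form. -/
noncomputable def lin (α β : ZMod 13) : PA := C α * X 0 + C β * X 1

theorem h13A : (13 : PA) = 0 := by
  rw [← map_ofNat (C : ZMod 13 →+* PA) 13]
  have : (13 : ZMod 13) = 0 := rfl
  rw [this, map_zero]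

theorem zpow169 (α : ZMod 13) : α ^ 13 ^ 2 = α := by
  have : Fact (Nat.Prime 13) := ⟨by norm_num⟩
  exact ZMod.pow_card_pow α

theorem lin_pow (α β : ZMod 13) : lin α β ^ J = ∑ j ∈ Finset.range 26,
    monomial (ex2 (169 * j) (169 * (25 - j))) (α ^ j * β ^ (25 - j) * (Nat.choose 25 j : ZMod 13)) := by
  rw [J_mul, pow_mul, lin, frob h13A (Commute.all _ _) 2, mul_pow, mul_pow, ← C_pow, ← C_pow,
    zpow169, zpow169, C_mul_X_pow_eq_monomial, C_mul_X_pow_eq_monomial, add_pow]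
  refine Finset.sum_congr rfl fun j _ => ?_
  rw [monomial_pow, monomial_pow, monomial_mul, ← map_natCast (C : ZMod 13 →+* PA), mul_comm,
    C_mul_monomial, mul_comm]
  congr 2
  apply ex2_ext <;> simp [ex2_0, ex2_1, mul_comm]

theorem coeff_lin_pow (α β : ZMod 13) {a b k : ℕ} (ha : a < 169) (hb : b < 169) (hk : k ≤ 25)
    (f : PA) : coeff (ex2 (a + 169 * k) (b + 169 * (25 - k))) (lin α β ^ J * f) =
      α ^ k * β ^ (25 - k) * (Nat.choose 25 k : ZMod 13) * coeff (ex2 a b) f := by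
  rw [lin_pow, Finset.sum_mul, coeff_sum, Finset.sum_eq_single k]
  · rw [coeff_monomial_mul', if_pos]
    · congr 2
      apply ex2_ext <;> simp [ex2_0, ex2_1]
    · intro i; fin_cases i <;> simp [ex2_0, ex2_1]
  · intro j hj hjk
    rw [coeff_monomial_mul', if_neg]
    intro h
    have h0 := h 0
    have h1 := h 1
    rw [ex2_0, ex2_0] at h0
    rw [ex2_1, ex2_1] at h1
    rw [Finset.mem_range] at hj
    omega
  · intro h
    rw [Finset.mem_range] at h
    omega

/-- The linear functional that detects the defect. -/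
noncomputable def phi (a b : ℕ) (f : PA) : ZMod 13 :=
  6 * coeff (ex2 (a + 169 * 1) (b + 169 * (25 - 1))) f +
    coeff (ex2 (a + 169 * 2) (b + 169 * (25 - 2))) f +
    coeff (ex2 (a + 169 * 23) (b + 169 * (25 - 23))) f +
    6 * coeff (ex2 (a + 169 * 24) (b + 169 * (25 - 24))) f

/-- The value of the functional on a power of a linear form. -/
def bet (α β : ZMod 13) : ZMod 13 :=
  6 * (α ^ 1 * β ^ (25 - 1) * (Nat.choose 25 1 : ZMod 13)) +
    α ^ 2 * β ^ (25 - 2) * (Nat.choose 25 2 : ZMod 13) +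
    α ^ 23 * β ^ (25 - 23) * (Nat.choose 25 23 : ZMod 13) +
    6 * (α ^ 24 * β ^ (25 - 24) * (Nat.choose 25 24 : ZMod 13))

theorem phi_lin (α β : ZMod 13) {a b : ℕ} (ha : a < 169) (hb : b < 169) (f : PA) :
    phi a b (lin α β ^ J * f) = bet α β * coeff (ex2 a b) f := by
  rw [phi, coeff_lin_pow α β ha hb (by norm_num), coeff_lin_pow α β ha hb (by norm_num),
    coeff_lin_pow α β ha hb (by norm_num), coeff_lin_pow α β ha hb (by norm_num), bet]
  ring

theorem phi_add (a b : ℕ) (f g : PA) : phi a b (f + g) = phi a b f + phi a b g := by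
  simp only [phi, coeff_add]; ring

theorem phi_sub (a b : ℕ) (f g : PA) : phi a b (f - g) = phi a b f - phi a b g := by
  simp only [phi, coeff_sub]; ring

theorem phi_high {a b N : ℕ} (hab : a + b = 24) (hN : 4250 ≤ N) {f : PA}
    (hf : f ∈ idealOfVars (Fin 2) (ZMod 13) ^ N) : phi a b f = 0 := by
  rw [mem_pow_idealOfVars_iff'] at hf
  rw [phi, hf, hf, hf, hf]
  · simp
  all_goals (rw [ex2_degree]; omega)

/-- The largest ideal on which the functional vanishes. -/
noncomputable def KK (a b : ℕ) : Ideal PA where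
  carrier := {f | ∀ h, phi a b (f * h) = 0}
  zero_mem' := by intro h; simp [phi]
  add_mem' := by
    intro f g hf hg h
    rw [add_mul, phi_add, hf h, hg h, add_zero]
  smul_mem' := by
    intro c f hf h
    rw [smul_eq_mul, mul_comm c, mul_assoc]
    exact hf _

theorem mem_KK {a b : ℕ} {f : PA} : f ∈ KK a b ↔ ∀ h, phi a b (f * h) = 0 := Iff.rfl

theorem bet_vals : bet 1 0 = 0 ∧ bet 0 1 = 0 ∧ bet 1 (-1) = 0 ∧ bet 2 2 = 6 ∧
    bet (-1) (-2) = -6 ∧ bet (-2) (-1) = -6 := by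
  simp only [bet, Nat.choose]
  decide

theorem C2 : (C (2 : ZMod 13) : PA) = 2 := map_ofNat _ 2

theorem lx : (X 0 : PA) = lin 1 0 := by simp [lin]
theorem ly : (X 1 : PA) = lin 0 1 := by simp [lin]
theorem lu : UU (X 0 : PA) (X 1) = lin 2 2 := by simp [lin, UU, C2]
theorem lxy : (X 0 : PA) - X 1 = lin 1 (-1) := by simp only [lin, map_neg, map_one]; ring
theorem lxu : (X 0 : PA) - UU (X 0) (X 1) = lin (-1) (-2) := by
  simp only [lin, UU, map_neg, map_one, C2]; ring
theorem lyu : (X 1 : PA) - UU (X 0) (X 1) = lin (-2) (-1) := by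
  simp only [lin, UU, map_neg, map_one, C2]; ring

theorem lin_hom (α β : ZMod 13) : (lin α β).IsHomogeneous 1 :=
  (isHomogeneous_C_mul_X _ _).add (isHomogeneous_C_mul_X _ _)

theorem g_hom : (gg (X 0 : PA) (X 1) ^ 3 * form (X 0 : PA) (X 1)).IsHomogeneous 24 := by
  have x : (X 0 : PA).IsHomogeneous 1 := isHomogeneous_X _ _
  have y : (X 1 : PA).IsHomogeneous 1 := isHomogeneous_X _ _
  have u : (UU (X 0 : PA) (X 1)).IsHomogeneous 1 := lu ▸ lin_hom 2 2
  have x2 : (2 * X 0 : PA).IsHomogeneous 1 := by rw [two_mul]; exact x.add x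
  have y3 : (3 * X 1 : PA).IsHomogeneous 1 := by
    rw [show (3 * X 1 : PA) = X 1 + X 1 + X 1 by ring]; exact (y.add y).add y
  have x6 : (6 * X 0 : PA).IsHomogeneous 1 := by
    rw [show (6 * X 0 : PA) = 2 * X 0 + 2 * X 0 + 2 * X 0 by ring]; exact (x2.add x2).add x2
  exact (((((((x.sub y).mul (x.sub u)).mul x).mul (y.sub u)).mul y).mul u).pow 3).mul
    ((((x.neg.sub y3).mul (x2.sub y3)).mul x6).mul (((x.sub y).mul (y.sub u)).mul u))

theorem g_ne : gg (X 0 : PA) (X 1) ^ 3 * form (X 0 : PA) (X 1) ≠ 0 := by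
  intro h
  have k := congrArg (eval (![2, 1] : Fin 2 → ZMod 13)) h
  rw [map_mul, map_pow, map_gg, map_form, map_zero, eval_X, eval_X] at k
  revert k
  simp only [gg, form, UU]
  decide

theorem map_pow_bot {A : Type} [CommRing A] {m K : Ideal A} {n : ℕ} (h : ∀ f ∈ m ^ n, f ∈ K) :
    (m.map (Ideal.Quotient.mk K)) ^ n = ⊥ := by
  rw [← Ideal.map_pow, Ideal.map_eq_bot_iff_le_ker, Ideal.mk_ker]
  exact h

theorem exists_base : ∃ (B : Type) (_ : CommRing B), Nonempty (Base B) := by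
  obtain ⟨d, hd⟩ := exists_coeff_ne_zero g_ne
  have hdeg : d.degree = 24 := by
    by_contra hne
    exact hd (g_hom.coeff_eq_zero hne)
  have hd2 : d = ex2 (d 0) (d 1) := ex2_ext (ex2_0 _ _).symm (ex2_1 _ _).symm
  rw [hd2] at hd hdeg
  rw [ex2_degree] at hdeg
  generalize d 0 = a at hd hdeg
  generalize d 1 = b at hd hdeg
  have ha : a < 169 := by omega
  have hb : b < 169 := by omega
  obtain ⟨v1, v2, v3, v4, v5, v6⟩ := bet_vals
  have rel : ∀ {p q r : PA} {α β γ δ ε ζ : ZMod 13}, p = lin α β → q = lin γ δ → r = lin ε ζ →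
      bet α β = bet γ δ - bet ε ζ → Ideal.Quotient.mk (KK a b) p ^ J =
        Ideal.Quotient.mk (KK a b) q ^ J - Ideal.Quotient.mk (KK a b) r ^ J := by
    intro p q r α β γ δ ε ζ hp hq hr h
    rw [← map_pow, ← map_pow, ← map_pow, ← map_sub, Ideal.Quotient.eq, mem_KK]
    intro f
    rw [sub_mul, sub_mul, phi_sub, phi_sub, hp, hq, hr, phi_lin _ _ ha hb, phi_lin _ _ ha hb,
      phi_lin _ _ ha hb, h]
    ring
  have hX : ∀ i : Fin 2, (X i : PA) ∈ idealOfVars (Fin 2) (ZMod 13) := fun i =>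
    Ideal.subset_span ⟨i, rfl⟩
  refine ⟨PA ⧸ KK a b, inferInstance, ⟨⟨(idealOfVars (Fin 2) (ZMod 13)).map (Ideal.Quotient.mk _),
    Ideal.Quotient.mk _ (X 0), Ideal.Quotient.mk _ (X 1), ?_, Ideal.mem_map_of_mem _ (hX 0),
    Ideal.mem_map_of_mem _ (hX 1), ?_, ?_, ?_, ?_, ?_⟩⟩⟩
  · rw [← map_ofNat (Ideal.Quotient.mk (KK a b)) 13, h13A, map_zero]
  · have hJ : 4250 ≤ J + 25 := by rw [J_eq]
    generalize J + 25 = N at hJ
    exact map_pow_bot fun f hf h => phi_high hdeg hJ (Ideal.mul_mem_right _ _ hf)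
  · rw [← map_sub]
    exact rel lxy lx ly (by rw [v1, v2, v3, sub_zero])
  · rw [← map_UU, ← map_sub]
    exact rel lxu lx lu (by rw [v1, v4, v5, zero_sub])
  · rw [← map_UU, ← map_sub]
    exact rel lyu ly lu (by rw [v2, v4, v6, zero_sub])
  · rw [← map_DD, ← map_gg, ← map_form, ← map_pow, ← map_mul, ← map_mul, Ne,
      Ideal.Quotient.eq_zero_iff_mem, mem_KK]
    intro h
    have k := h 1
    set g := gg (X 0 : PA) (X 1) ^ 3 * form (X 0 : PA) (X 1) with hg
    have e : DD (X 0 : PA) (X 1) * g * 1 = lin 2 2 ^ J * g - (lin 1 0 ^ J * g + lin 1 0 ^ J * g) -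
        (lin 0 1 ^ J * g + lin 0 1 ^ J * g) := by
      rw [DD, ← lu, ← lx, ← ly]; ring
    rw [e, phi_sub, phi_sub, phi_add, phi_add, phi_lin _ _ ha hb, phi_lin _ _ ha hb,
      phi_lin _ _ ha hb, v1, v2, v4] at k
    apply hd
    have h6 : (11 : ZMod 13) * 6 = 1 := by decide
    linear_combination 11 * k - coeff (ex2 a b) g * h6

theorem final :
    ¬ (∀ (G H : Type) [Group G] [Group H] (e : H ≃ G) (v : FreeGroup (Fin 2)),
      (∀ a b : H, e (a * b) = FreeGroup.lift (![e a, e b] : Fin 2 → G) v) →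
      ∀ w : FreeGroup ℕ,
        (∀ f : ℕ → G, FreeGroup.lift f w = 1) →
        ∀ f : ℕ → H, FreeGroup.lift f w = 1) := by
  obtain ⟨B, _, ⟨A⟩⟩ := exists_base
  exact counterexample A.setup A.nz

end Pool.Agent.MP_394f71_al.H79
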