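import Pool.Agent.MP_394f71_al.H79.Lead

set_option autoImplicit false

namespace Pool.Agent.MP_394f71_al.H79

open UT

variable {B : Type} [CommRing B]

/-- The annihilator of a ring element. -/
def ann (c : B) : Ideal B := LinearMap.ker (LinearMap.mulLeft B c)

theorem mem_ann {c x : B} : x ∈ ann c ↔ c * x = 0 := by
  simp [ann]

theorem mk_ann {c x : B} : Ideal.Quotient.mk (ann c) x = 0 ↔ c * x = 0 := by
  rw [Ideal.Quotient.eq_zero_iff_mem, mem_ann]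

theorem map_ann {c : B} {W : UT B} (h : c • W = 0) : map (Ideal.Quotient.mk (ann c)) W = 0 := by
  rw [smul_def, zero_def, UT.mk.injEq] at h
  obtain ⟨h1, h2, h3, h4, h5, h6, h7, h8, h9, h10⟩ := h
  ext <;> simp only [map_def, zero_def, mk_ann] <;> assumption

theorem disc_dvd (a b c d : B) (k : ℕ) :
    disc a b c d ∣ disc (a ^ k) (b ^ k) (c ^ k) (d ^ k) :=
  mul_dvd_mul (mul_dvd_mul (mul_dvd_mul (mul_dvd_mul (mul_dvd_mul (sub_dvd_pow_sub_pow _ _ _)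
    (sub_dvd_pow_sub_pow _ _ _)) (sub_dvd_pow_sub_pow _ _ _)) (sub_dvd_pow_sub_pow _ _ _))
    (sub_dvd_pow_sub_pow _ _ _)) (sub_dvd_pow_sub_pow _ _ _)

theorem pow_big' (h13 : (13 : B) = 0) {m : Ideal B} (hN : m ^ (J + 25) = ⊥) {r : B}
    (h : r - 1 ∈ m ^ 1) : r ^ 13 ^ 4 = 1 := by
  have k1 := pow_mem_mul h (13 ^ 4)
  rw [frob_sub h13 (Commute.one_right r) 4, one_pow] at k1
  have k2 := pmono k1 (c := J + 25) (by rw [J_eq]; norm_num)
  rw [hN, Ideal.mem_bot, sub_eq_zero] at k2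
  exact k2

theorem exists_root {s t : B} {q n : ℕ} (hs : s ^ q = 1) (ht : t ^ q = 1) (hn : n.Coprime q) :
    ∃ k : ℕ, (s ^ n) ^ k = s ∧ (t ^ n) ^ k = t := by
  have h : ((s, t) : B × B) ^ q = 1 := by rw [Prod.pow_mk, hs, ht]; rfl
  obtain ⟨k, hk⟩ := exists_pow_eq_self_of_coprime
    (Nat.Coprime.coprime_dvd_right (orderOf_dvd_of_pow_eq_one h) hn)
  rw [Prod.pow_mk, Prod.pow_mk, Prod.mk.injEq] at hk
  exact ⟨k, hk⟩

/-- Leading form of the product of differences. -/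
def gg (x y : B) : B := (x - y) * (x - UU x y) * x * (y - UU x y) * y * UU x y

/-- The product of differences for the fixed diagonal. -/
def PP (x y : B) : B := disc (1 + x) (1 + y) ((1 + x) ^ 2 * (1 + y) ^ 2) 1

theorem PP_ld {m : Ideal B} {x y : B} (hx : x ∈ m) (hy : y ∈ m) :
    Ld m 18 (PP x y ^ 3) (gg x y ^ 3) := by
  have a := LL.base hx
  have b := LL.base hy
  have c := LL_u hx hy
  have k : Ld m 6 (PP x y) (gg x y) :=
    (((((a.sub b).mul (a.sub c)).mul a).mul (b.sub c)).mul b).mul c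
  have := (k.mul k).mul k
  rwa [← pow_three', ← pow_three'] at this

/-- The properties of the base ring. -/
structure Base (B : Type) [CommRing B] where
  m : Ideal B
  x : B
  y : B
  h13 : (13 : B) = 0
  hx : x ∈ m
  hy : y ∈ m
  hN : m ^ (J + 25) = ⊥
  r12 : (x - y) ^ J = x ^ J - y ^ J
  r13 : (x - UU x y) ^ J = x ^ J - UU x y ^ J
  r23 : (y - UU x y) ^ J = y ^ J - UU x y ^ J
  ne : DD x y * (gg x y ^ 3 * form x y) ≠ 0

theorem scale_rel {a b : B} (c : B) (h : (a - b) ^ J = a ^ J - b ^ J) :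
    (c * a - c * b) ^ J = (c * a) ^ J - (c * b) ^ J := by
  rw [← mul_sub, mul_pow, mul_pow, mul_pow, h, mul_sub]

theorem zero_rel (a : B) : (a - 0) ^ J = a ^ J - 0 ^ J := by
  rw [sub_zero, zero_pow (by rw [J_eq]; norm_num), sub_zero]

theorem Base.psi_zero (A : Base B) (z M : UT B) (n : ℕ) (hn : ¬ 13 ∣ n) (h1 : z.d1 = (1 + A.x) ^ n)
    (h2 : z.d2 = (1 + A.y) ^ n) (h3 : z.d3 = ((1 + A.x) ^ 2 * (1 + A.y) ^ 2) ^ n) (h4 : z.d4 = 1)
    (hM : Str M) : PP A.x A.y ^ 3 • psi z 4224 M = 0 := by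
  have a : LL A.m z.d1 (n * A.x) := h1 ▸ (LL.base A.hx).pow n
  have b : LL A.m z.d2 (n * A.y) := h2 ▸ (LL.base A.hy).pow n
  have c : LL A.m z.d3 (n * UU A.x A.y) := h3 ▸ (LL_u A.hx A.hy).pow n
  have d : LL A.m z.d4 0 := h4 ▸ LL.one A.m
  have hle : J + 25 ≤ J + 169 := Nat.add_le_add_left (by norm_num) _
  have k := psi_disc z M hM 4224 (wk_of A.h13 A.hN hle a b (scale_rel _ A.r12))
    (wk_of A.h13 A.hN hle a c (scale_rel _ A.r13)) (wk_of A.h13 A.hN hle a d (zero_rel _))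
    (wk_of A.h13 A.hN hle b c (scale_rel _ A.r23)) (wk_of A.h13 A.hN hle b d (zero_rel _))
    (wk_of A.h13 A.hN hle c d (zero_rel _))
  have hc : n.Coprime (13 ^ 4) :=
    Nat.Coprime.pow_right 4 ((Nat.Prime.coprime_iff_not_dvd (by norm_num)).2 hn).symm
  obtain ⟨e, e1, e2⟩ := exists_root (pow_big' A.h13 A.hN (Ld.mem (LL.base A.hx)))
    (pow_big' A.h13 A.hN (Ld.mem (LL.base A.hy))) hc
  have e3 : (((1 + A.x) ^ 2 * (1 + A.y) ^ 2) ^ n) ^ e = (1 + A.x) ^ 2 * (1 + A.y) ^ 2 := by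
    calc _ = (((1 + A.x) ^ n) ^ e) ^ 2 * (((1 + A.y) ^ n) ^ e) ^ 2 := by
          simp only [mul_pow, ← pow_mul]; congr 2 <;> ring
      _ = _ := by rw [e1, e2]
  obtain ⟨w, hw⟩ := disc_dvd z.d1 z.d2 z.d3 z.d4 e
  have e4 : PP A.x A.y = disc z.d1 z.d2 z.d3 z.d4 * w := by
    rw [← hw, h1, h2, h3, h4, e1, e2, e3, one_pow, PP]
  rw [e4, mul_pow, mul_comm, mul_smul, k, smul_zero]

/-- The coefficient ring as a quotient of the base ring. -/
def Base.setup (A : Base B) : Setup (B ⧸ ann (PP A.x A.y ^ 3)) where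
  m := A.m.map (Ideal.Quotient.mk _)
  s := 1 + Ideal.Quotient.mk _ A.x
  t := 1 + Ideal.Quotient.mk _ A.y
  h13 := by rw [← map_ofNat (Ideal.Quotient.mk (ann (PP A.x A.y ^ 3))) 13, A.h13, map_zero]
  hs := by rw [add_sub_cancel_left]; exact Ideal.mem_map_of_mem _ A.hx
  ht := by rw [add_sub_cancel_left]; exact Ideal.mem_map_of_mem _ A.hy
  hN := by
    rw [← Ideal.map_pow, Ideal.map_eq_bot_iff_le_ker, Ideal.mk_ker]
    intro r hr
    have := pm (PP_ld A.hx A.hy).mem hr (c := J + 25) (by omega)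
    rw [A.hN, Ideal.mem_bot] at this
    exact mem_ann.2 this
  kl := by
    intro z M n hn h1 h2 h3 h4 hM
    obtain ⟨m1, m2, m3, m4⟩ := hM
    have sj := Ideal.Quotient.mk_surjective (I := ann (PP A.x A.y ^ 3))
    obtain ⟨a1, ha1⟩ := sj z.a12
    obtain ⟨a2, ha2⟩ := sj z.a23
    obtain ⟨a3, ha3⟩ := sj z.a34
    obtain ⟨a4, ha4⟩ := sj z.a13
    obtain ⟨a5, ha5⟩ := sj z.a24
    obtain ⟨a6, ha6⟩ := sj z.a14
    obtain ⟨b1, hb1⟩ := sj M.a12
    obtain ⟨b2, hb2⟩ := sj M.a23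
    obtain ⟨b3, hb3⟩ := sj M.a34
    obtain ⟨b4, hb4⟩ := sj M.a13
    obtain ⟨b5, hb5⟩ := sj M.a24
    obtain ⟨b6, hb6⟩ := sj M.a14
    have k := map_ann (A.psi_zero ⟨(1 + A.x) ^ n, (1 + A.y) ^ n,
      ((1 + A.x) ^ 2 * (1 + A.y) ^ 2) ^ n, 1, a1, a2, a3, a4, a5, a6⟩
      ⟨0, 0, 0, 0, b1, b2, b3, b4, b5, b6⟩ n hn rfl rfl rfl rfl ⟨rfl, rfl, rfl, rfl⟩)
    rw [map_psi] at k
    have ez : map (Ideal.Quotient.mk (ann (PP A.x A.y ^ 3))) ⟨(1 + A.x) ^ n, (1 + A.y) ^ n,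
        ((1 + A.x) ^ 2 * (1 + A.y) ^ 2) ^ n, 1, a1, a2, a3, a4, a5, a6⟩ = z := by
      ext <;> simp only [map_def, map_pow, map_mul, map_add, map_one, h1, h2, h3, h4, ha1, ha2,
        ha3, ha4, ha5, ha6]
    have eM : map (Ideal.Quotient.mk (ann (PP A.x A.y ^ 3)))
        ⟨0, 0, 0, 0, b1, b2, b3, b4, b5, b6⟩ = M := by
      ext <;> simp only [map_def, map_zero, m1, m2, m3, m4, hb1, hb2, hb3, hb4, hb5, hb6]
    rw [ez, eM] at k
    exact k

theorem map_UU {C : Type} [CommRing C] (f : B →+* C) (x y : B) : f (UU x y) = UU (f x) (f y) := by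
  simp only [UU, map_add, map_mul, map_ofNat]

theorem map_DD {C : Type} [CommRing C] (f : B →+* C) (x y : B) : f (DD x y) = DD (f x) (f y) := by
  simp only [DD, map_sub, map_mul, map_ofNat, map_pow, map_UU]

theorem map_form {C : Type} [CommRing C] (f : B →+* C) (x y : B) :
    f (form x y) = form (f x) (f y) := by
  simp only [form, map_sub, map_mul, map_ofNat, map_neg, map_UU]

theorem map_gg {C : Type} [CommRing C] (f : B →+* C) (x y : B) : f (gg x y) = gg (f x) (f y) := by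
  simp only [gg, map_sub, map_mul, map_UU]

theorem DF_mem {m : Ideal B} {x y : B} (hx : x ∈ m) (hy : y ∈ m) :
    DD x y * form x y ∈ m ^ (J + 6) := by
  have a := (LL.base hx).1
  have b := (LL.base hy).1
  have c := (LL_u hx hy).1
  have k : form x y ∈ m ^ (6 : ℕ) :=
    pm (pm (pm (Ideal.sub_mem _ (neg_mem a) (Ideal.mul_mem_left _ _ b))
      (Ideal.sub_mem _ (Ideal.mul_mem_left _ _ a) (Ideal.mul_mem_left _ _ b)) le_rfl)
      (Ideal.mul_mem_left _ _ a) le_rfl)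
      (pm (pm (Ideal.sub_mem _ a b) (Ideal.sub_mem _ b c) le_rfl) c le_rfl) le_rfl
  have k2 : DD x y ∈ m ^ J := Ideal.sub_mem _ (Ideal.sub_mem _ (powJ_mem c)
    (Ideal.mul_mem_left _ _ (powJ_mem a))) (Ideal.mul_mem_left _ _ (powJ_mem b))
  exact pm k2 k le_rfl

theorem Base.nz (A : Base B) : NZ A.setup := by
  intro y1 y2 y3 h1 h2 h3 h
  have hx : Ideal.Quotient.mk (ann (PP A.x A.y ^ 3)) A.x ∈ A.setup.m := Ideal.mem_map_of_mem _ A.hx
  have hy : Ideal.Quotient.mk (ann (PP A.x A.y ^ 3)) A.y ∈ A.setup.m := Ideal.mem_map_of_mem _ A.hy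
  rw [nz_lead A.setup.h13 A.setup.hN hx hy h1 h2 h3, neg_eq_zero, ← map_DD, ← map_form, ← map_mul,
    mk_ann] at h
  have k := ((PP_ld A.hx A.hy).mul (Ld.refl (DF_mem A.hx A.hy))).eq A.hN (by omega)
  apply A.ne
  rw [h] at k
  rw [k]; ring

end Pool.Agent.MP_394f71_al.H79
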