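import Pool.Agent.MP_394f71_al.H79.KL

set_option autoImplicit false

namespace Pool.Agent.MP_394f71_al.H79

open UT Polynomial

variable {R : Type} [CommRing R]

theorem simpson_poly (h : (13 : R) = 0) (p : R[X]) (hp : p.natDegree ≤ 3) :
    p.eval 1 - p.eval 0 = 11 * ((derivative p).eval 0 + 4 * (derivative p).eval 7 +
      (derivative p).eval 1) := by
  have e := p.as_sum_range' 4 (by omega)
  generalize p.coeff = c at e
  subst e
  simp only [Finset.sum_range_succ, Finset.sum_range_zero, zero_add, derivative_add,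
    derivative_monomial, eval_add, eval_monomial, Nat.cast_zero, Nat.cast_one, Nat.cast_ofNat]
  norm_num
  grind

theorem nd_mul {p q : R[X]} {a b c : ℕ} (hp : p.natDegree ≤ a) (hq : q.natDegree ≤ b)
    (h : a + b ≤ c) : (p * q).natDegree ≤ c :=
  natDegree_mul_le.trans ((add_le_add hp hq).trans h)

theorem nd_add {p q : R[X]} {a : ℕ} (hp : p.natDegree ≤ a) (hq : q.natDegree ≤ a) :
    (p + q).natDegree ≤ a := (natDegree_add_le _ _).trans (max_le hp hq)

/-- Matrices over the polynomial ring whose entry at distance l has degree at most l. -/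
def Lev (R : Type) [CommRing R] : Subring (UT R[X]) where
  carrier := {x | x.d1.natDegree ≤ 0 ∧ x.d2.natDegree ≤ 0 ∧ x.d3.natDegree ≤ 0 ∧
    x.d4.natDegree ≤ 0 ∧ x.a12.natDegree ≤ 1 ∧ x.a23.natDegree ≤ 1 ∧ x.a34.natDegree ≤ 1 ∧
    x.a13.natDegree ≤ 2 ∧ x.a24.natDegree ≤ 2 ∧ x.a14.natDegree ≤ 3}
  zero_mem' := by simp [zero_def]
  one_mem' := by simp [one_def]
  add_mem' := by
    rintro x y ⟨h1, h2, h3, h4, h5, h6, h7, h8, h9, h10⟩ ⟨k1, k2, k3, k4, k5, k6, k7, k8, k9, k10⟩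
    exact ⟨nd_add h1 k1, nd_add h2 k2, nd_add h3 k3, nd_add h4 k4, nd_add h5 k5, nd_add h6 k6,
      nd_add h7 k7, nd_add h8 k8, nd_add h9 k9, nd_add h10 k10⟩
  neg_mem' := by
    rintro x ⟨h1, h2, h3, h4, h5, h6, h7, h8, h9, h10⟩
    simp only [Set.mem_ofPred_eq, neg_def, natDegree_neg]
    exact ⟨h1, h2, h3, h4, h5, h6, h7, h8, h9, h10⟩
  mul_mem' := by
    rintro x y ⟨h1, h2, h3, h4, h5, h6, h7, h8, h9, h10⟩ ⟨k1, k2, k3, k4, k5, k6, k7, k8, k9, k10⟩
    refine ⟨nd_mul h1 k1 le_rfl, nd_mul h2 k2 le_rfl, nd_mul h3 k3 le_rfl, nd_mul h4 k4 le_rfl,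
      ?_, ?_, ?_, ?_, ?_, ?_⟩
    · exact nd_add (nd_mul h1 k5 le_rfl) (nd_mul h5 k2 le_rfl)
    · exact nd_add (nd_mul h2 k6 le_rfl) (nd_mul h6 k3 le_rfl)
    · exact nd_add (nd_mul h3 k7 le_rfl) (nd_mul h7 k4 le_rfl)
    · exact nd_add (nd_add (nd_mul h1 k8 le_rfl) (nd_mul h5 k6 le_rfl)) (nd_mul h8 k3 le_rfl)
    · exact nd_add (nd_add (nd_mul h2 k9 le_rfl) (nd_mul h6 k7 le_rfl)) (nd_mul h9 k4 le_rfl)
    · exact nd_add (nd_add (nd_add (nd_mul h1 k10 le_rfl) (nd_mul h5 k9 le_rfl))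
        (nd_mul h8 k7 le_rfl)) (nd_mul h10 k4 le_rfl)

theorem map_C_mem (z : UT R) : UT.map (C : R →+* R[X]) z ∈ Lev R := by
  refine ⟨?_, ?_, ?_, ?_, ?_, ?_, ?_, ?_, ?_, ?_⟩ <;> simp [map_def]

theorem X_smul_mem {a : UT R} (ha : Str a) : (X : R[X]) • UT.map (C : R →+* R[X]) a ∈ Lev R := by
  obtain ⟨h1, h2, h3, h4⟩ := ha
  have k : ∀ (r : R) (c : ℕ), 1 ≤ c → ((X : R[X]) * C r).natDegree ≤ c := fun r c hc =>
    nd_mul natDegree_X_le (natDegree_C r).le (by omega)
  refine ⟨?_, ?_, ?_, ?_, ?_, ?_, ?_, ?_, ?_, ?_⟩ <;>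
    simp only [map_def, smul_def, smul_eq_mul, h1, h2, h3, h4, map_zero, mul_zero,
      natDegree_zero, le_refl] <;> exact k _ _ (by omega)

theorem ex_mem {a : UT R[X]} (ha : a ∈ Lev R) : ex a ∈ Lev R :=
  add_mem (add_mem (add_mem (one_mem _) ha) (nsmul_mem (mul_mem ha ha) _))
    (nsmul_mem (mul_mem (mul_mem ha ha) ha) _)

/-- Entrywise derivative. -/
noncomputable def Dv (x : UT R[X]) : UT R[X] :=
  ⟨derivative x.d1, derivative x.d2, derivative x.d3, derivative x.d4, derivative x.a12,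
    derivative x.a23, derivative x.a34, derivative x.a13, derivative x.a24, derivative x.a14⟩

theorem Dv_mul (x y : UT R[X]) : Dv (x * y) = Dv x * y + x * Dv y := by
  ext1 <;> simp only [Dv, mul_def, add_def, derivative_add, derivative_mul] <;> ring

theorem Dv_pow (A : UT R[X]) (n : ℕ) : Dv (A ^ n) = hsum A n (Dv A) := by
  induction n with
  | zero => ext1 <;> simp [Dv, hsum, one_def, zero_def]
  | succ n ih => rw [pow_succ', Dv_mul, ih, hsum, add_comm]

theorem Dv_path (h : (13 : R) = 0) (z : UT R) {a : UT R} (ha : Str a) :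
    Dv (UT.map (C : R →+* R[X]) z * ex ((X : R[X]) • UT.map (C : R →+* R[X]) a) - 1) =
      UT.map (C : R →+* R[X]) z * ex ((X : R[X]) • UT.map (C : R →+* R[X]) a) *
        UT.map (C : R →+* R[X]) a := by
  have h' : (13 : R[X]) = 0 := by
    have : (13 : R[X]) = C (13 : R) := rfl
    rw [this, h, map_zero]
  obtain ⟨h1, h2, h3, h4⟩ := ha
  ext1 <;> simp only [Dv, ex, map_def, mul_def, add_def, sub_def, smul_def, one_def, h1, h2, h3, h4,
    map_zero, smul_eq_mul, nsmul_eq_mul, Nat.cast_ofNat, mul_zero, zero_mul, add_zero, zero_add,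
    mul_one, sub_zero, derivative_add, derivative_sub, derivative_mul, derivative_X, derivative_C,
    derivative_one, derivative_ofNat, derivative_zero, one_mul] <;> grind

theorem ev_path (z a : UT R) (t : ℕ) :
    UT.map (evalRingHom (t : R))
      (UT.map (C : R →+* R[X]) z * ex ((X : R[X]) • UT.map (C : R →+* R[X]) a)) =
      z * ex (t • a) := by
  have e1 : ∀ y : UT R, UT.map (evalRingHom (t : R)) (UT.map (C : R →+* R[X]) y) = y := fun y => by
    ext <;> simp [map_def]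
  have e2 : UT.map (evalRingHom (t : R)) ((X : R[X]) • UT.map (C : R →+* R[X]) a) = t • a := by
    ext <;> simp only [map_def, smul_def, smul_eq_mul, nsmul_eq_mul, coe_evalRingHom, eval_mul,
      eval_X, eval_C]
  rw [map_mul, e1]
  simp only [ex, map_add, map_mul, map_one, map_nsmul, e2]

/-- Derivative of the path at an integer time. -/
def fd (z a : UT R) (n t : ℕ) : UT R := hsum (z * ex (t • a) - 1) n (z * ex (t • a) * a)

theorem simpson (h : (13 : R) = 0) (z : UT R) {a : UT R} (ha : Str a) (n : ℕ) :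
    (z * ex a - 1) ^ n - (z - 1) ^ n = 11 • (fd z a n 0 + 4 • fd z a n 7 + fd z a n 1) := by
  set g : UT R[X] := UT.map (C : R →+* R[X]) z * ex ((X : R[X]) • UT.map (C : R →+* R[X]) a)
    with hg
  have hF : (g - 1) ^ n ∈ Lev R :=
    pow_mem (sub_mem (mul_mem (map_C_mem z) (ex_mem (X_smul_mem ha))) (one_mem _)) n
  have v : ∀ t : ℕ, UT.map (evalRingHom (t : R)) ((g - 1) ^ n) = (z * ex (t • a) - 1) ^ n :=
    fun t => by rw [map_pow, map_sub, map_one, hg, ev_path]
  have e1 : ∀ (t : ℕ) (y : UT R),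
      UT.map (evalRingHom (t : R)) (UT.map (C : R →+* R[X]) y) = y := fun t y => by
    ext <;> simp [map_def]
  have w : ∀ t : ℕ, UT.map (evalRingHom (t : R)) (Dv ((g - 1) ^ n)) = fd z a n t := fun t => by
    rw [Dv_pow, hg, Dv_path h z ha, map_hsum, map_sub, map_one, map_mul _ _ (UT.map C a), ev_path,
      e1, fd]
  have v1 := v 1
  have v0 := v 0
  rw [one_smul] at v1
  rw [zero_smul, ex_zero, mul_one] at v0
  rw [← v1, ← v0, ← w 0, ← w 7, ← w 1]
  generalize (g - 1) ^ n = F at hF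
  obtain ⟨h1, h2, h3, h4, h5, h6, h7, h8, h9, h10⟩ := hF
  ext <;> simp only [map_def, Dv, add_def, sub_def, smul_def, nsmul_eq_mul, Nat.cast_ofNat,
    Nat.cast_zero, Nat.cast_one, coe_evalRingHom] <;> exact simpson_poly h _ (by omega)

end Pool.Agent.MP_394f71_al.H79
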