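import Mathlib

set_option autoImplicit false

namespace Pool.Agent.MP_394f71_al.H79

/-- Upper triangular four by four matrices, by their ten entries. -/
@[ext] structure UT (R : Type) where
  d1 : R
  d2 : R
  d3 : R
  d4 : R
  a12 : R
  a23 : R
  a34 : R
  a13 : R
  a24 : R
  a14 : R

namespace UT

variable {R : Type} [CommRing R]

instance : Zero (UT R) := ⟨⟨0, 0, 0, 0, 0, 0, 0, 0, 0, 0⟩⟩
instance : One (UT R) := ⟨⟨1, 1, 1, 1, 0, 0, 0, 0, 0, 0⟩⟩
instance : Add (UT R) := ⟨fun x y => ⟨x.d1 + y.d1, x.d2 + y.d2, x.d3 + y.d3, x.d4 + y.d4,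
  x.a12 + y.a12, x.a23 + y.a23, x.a34 + y.a34, x.a13 + y.a13, x.a24 + y.a24, x.a14 + y.a14⟩⟩
instance : Neg (UT R) := ⟨fun x => ⟨-x.d1, -x.d2, -x.d3, -x.d4,
  -x.a12, -x.a23, -x.a34, -x.a13, -x.a24, -x.a14⟩⟩
instance : Sub (UT R) := ⟨fun x y => ⟨x.d1 - y.d1, x.d2 - y.d2, x.d3 - y.d3, x.d4 - y.d4,
  x.a12 - y.a12, x.a23 - y.a23, x.a34 - y.a34, x.a13 - y.a13, x.a24 - y.a24, x.a14 - y.a14⟩⟩
instance : Mul (UT R) := ⟨fun x y => ⟨x.d1 * y.d1, x.d2 * y.d2, x.d3 * y.d3, x.d4 * y.d4,
  x.d1 * y.a12 + x.a12 * y.d2, x.d2 * y.a23 + x.a23 * y.d3, x.d3 * y.a34 + x.a34 * y.d4,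
  x.d1 * y.a13 + x.a12 * y.a23 + x.a13 * y.d3, x.d2 * y.a24 + x.a23 * y.a34 + x.a24 * y.d4,
  x.d1 * y.a14 + x.a12 * y.a24 + x.a13 * y.a34 + x.a14 * y.d4⟩⟩
instance instSMulUT {S : Type} [SMul S R] : SMul S (UT R) :=
  ⟨fun c x => ⟨c • x.d1, c • x.d2, c • x.d3, c • x.d4,
  c • x.a12, c • x.a23, c • x.a34, c • x.a13, c • x.a24, c • x.a14⟩⟩
instance : NatCast (UT R) := ⟨fun n => ⟨n, n, n, n, 0, 0, 0, 0, 0, 0⟩⟩
instance : IntCast (UT R) := ⟨fun n => ⟨n, n, n, n, 0, 0, 0, 0, 0, 0⟩⟩

theorem zero_def : (0 : UT R) = ⟨0, 0, 0, 0, 0, 0, 0, 0, 0, 0⟩ := rfl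
theorem one_def : (1 : UT R) = ⟨1, 1, 1, 1, 0, 0, 0, 0, 0, 0⟩ := rfl
theorem add_def (x y : UT R) : x + y = ⟨x.d1 + y.d1, x.d2 + y.d2, x.d3 + y.d3, x.d4 + y.d4,
  x.a12 + y.a12, x.a23 + y.a23, x.a34 + y.a34, x.a13 + y.a13, x.a24 + y.a24, x.a14 + y.a14⟩ := rfl
theorem neg_def (x : UT R) : -x = ⟨-x.d1, -x.d2, -x.d3, -x.d4,
  -x.a12, -x.a23, -x.a34, -x.a13, -x.a24, -x.a14⟩ := rfl
theorem sub_def (x y : UT R) : x - y = ⟨x.d1 - y.d1, x.d2 - y.d2, x.d3 - y.d3, x.d4 - y.d4,
  x.a12 - y.a12, x.a23 - y.a23, x.a34 - y.a34, x.a13 - y.a13, x.a24 - y.a24, x.a14 - y.a14⟩ := rfl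
theorem mul_def (x y : UT R) : x * y = ⟨x.d1 * y.d1, x.d2 * y.d2, x.d3 * y.d3, x.d4 * y.d4,
  x.d1 * y.a12 + x.a12 * y.d2, x.d2 * y.a23 + x.a23 * y.d3, x.d3 * y.a34 + x.a34 * y.d4,
  x.d1 * y.a13 + x.a12 * y.a23 + x.a13 * y.d3, x.d2 * y.a24 + x.a23 * y.a34 + x.a24 * y.d4,
  x.d1 * y.a14 + x.a12 * y.a24 + x.a13 * y.a34 + x.a14 * y.d4⟩ := rfl
omit [CommRing R] in
theorem smul_def {S : Type} [SMul S R] (c : S) (x : UT R) : c • x =
  ⟨c • x.d1, c • x.d2, c • x.d3, c • x.d4,
  c • x.a12, c • x.a23, c • x.a34, c • x.a13, c • x.a24, c • x.a14⟩ := rfl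
theorem natCast_def (n : ℕ) : ((n : ℕ) : UT R) = ⟨n, n, n, n, 0, 0, 0, 0, 0, 0⟩ := rfl
theorem intCast_def (n : ℤ) : ((n : ℤ) : UT R) = ⟨n, n, n, n, 0, 0, 0, 0, 0, 0⟩ := rfl

instance : AddCommGroup (UT R) where
  add_assoc x y z := by ext <;> simp only [add_def] <;> ring
  zero_add x := by ext <;> simp only [add_def, zero_def] <;> ring
  add_zero x := by ext <;> simp only [add_def, zero_def] <;> ring
  add_comm x y := by ext <;> simp only [add_def] <;> ring
  neg_add_cancel x := by ext <;> simp only [add_def, zero_def, neg_def] <;> ring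
  sub_eq_add_neg x y := by ext <;> simp only [add_def, sub_def, neg_def] <;> ring
  nsmul n x := n • x
  nsmul_zero x := by ext <;> simp only [smul_def, zero_def, zero_smul]
  nsmul_succ n x := by ext <;> simp only [smul_def, add_def, succ_nsmul]
  zsmul n x := n • x
  zsmul_zero' x := by ext <;> simp only [smul_def, zero_def, zero_smul]
  zsmul_succ' n x := by
    ext <;> simp only [smul_def, add_def, Nat.cast_succ, add_smul, one_smul]
  zsmul_neg' n x := by
    ext <;> simp only [smul_def, neg_def, Int.negSucc_eq, neg_smul, Nat.cast_succ]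

instance : Ring (UT R) where
  __ := (inferInstance : AddCommGroup (UT R))
  left_distrib x y z := by ext <;> simp only [add_def, mul_def] <;> ring
  right_distrib x y z := by ext <;> simp only [add_def, mul_def] <;> ring
  zero_mul x := by ext <;> simp only [zero_def, mul_def] <;> ring
  mul_zero x := by ext <;> simp only [zero_def, mul_def] <;> ring
  mul_assoc x y z := by ext <;> simp only [mul_def] <;> ring
  one_mul x := by ext <;> simp only [one_def, mul_def] <;> ring
  mul_one x := by ext <;> simp only [one_def, mul_def] <;> ring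
  natCast_zero := by ext <;> simp only [natCast_def, zero_def, Nat.cast_zero]
  natCast_succ n := by
    ext <;> simp only [natCast_def, add_def, one_def, Nat.cast_succ, add_zero]
  intCast_ofNat n := by ext <;> simp only [natCast_def, intCast_def, Int.cast_natCast]
  intCast_negSucc n := by
    ext <;> simp only [natCast_def, intCast_def, neg_def, Int.cast_negSucc, neg_zero]

instance : Module R (UT R) where
  one_smul x := by ext <;> simp only [smul_def, one_smul]
  mul_smul a b x := by ext <;> simp only [smul_def, mul_smul]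
  smul_zero a := by ext <;> simp only [smul_def, zero_def, smul_zero]
  smul_add a x y := by ext <;> simp only [smul_def, add_def, smul_add]
  add_smul a b x := by ext <;> simp only [smul_def, add_def, add_smul]
  zero_smul x := by ext <;> simp only [smul_def, zero_def, zero_smul]

theorem smul_mul' (c : R) (x y : UT R) : (c • x) * y = c • (x * y) := by
  ext <;> simp only [smul_def, mul_def, smul_eq_mul] <;> ring

theorem mul_smul' (c : R) (x y : UT R) : x * (c • y) = c • (x * y) := by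
  ext <;> simp only [smul_def, mul_def, smul_eq_mul] <;> ring

instance : IsScalarTower R (UT R) (UT R) := ⟨fun c x y => smul_mul' c x y⟩
instance : SMulCommClass R (UT R) (UT R) := ⟨fun c x y => (mul_smul' c x y).symm⟩

/-- Entrywise image under a ring homomorphism. -/
def map {S : Type} [CommRing S] (f : R →+* S) : UT R →+* UT S where
  toFun x := ⟨f x.d1, f x.d2, f x.d3, f x.d4, f x.a12, f x.a23, f x.a34, f x.a13, f x.a24, f x.a14⟩
  map_one' := by ext <;> simp only [one_def, map_one, map_zero]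
  map_zero' := by ext <;> simp only [zero_def, map_zero]
  map_mul' x y := by ext <;> simp only [mul_def, map_add, map_mul]
  map_add' x y := by ext <;> simp only [add_def, map_add]

theorem map_def {S : Type} [CommRing S] (f : R →+* S) (x : UT R) : map f x =
    ⟨f x.d1, f x.d2, f x.d3, f x.d4, f x.a12, f x.a23, f x.a34, f x.a13, f x.a24, f x.a14⟩ := rfl

/-- Strictly upper triangular. -/
def Str (x : UT R) : Prop := x.d1 = 0 ∧ x.d2 = 0 ∧ x.d3 = 0 ∧ x.d4 = 0

/-- Unipotent. -/
def Uni (x : UT R) : Prop := x.d1 = 1 ∧ x.d2 = 1 ∧ x.d3 = 1 ∧ x.d4 = 1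

def ex (a : UT R) : UT R := 1 + a + 7 • (a * a) + 11 • (a * a * a)

def lg (u : UT R) : UT R := (u - 1) + 6 • ((u - 1) * (u - 1)) + 9 • ((u - 1) * (u - 1) * (u - 1))

def br (a b : UT R) : UT R := a * b - b * a

def cm (a b : UT R) : UT R := br a b + 7 • br a (br a b) + 7 • br b (br a b)

theorem ex_neg (h : (13 : R) = 0) (a : UT R) (ha : Str a) : ex a * ex (-a) = 1 := by
  obtain ⟨h1, h2, h3, h4⟩ := ha
  ext <;> simp only [ex, mul_def, add_def, smul_def, one_def, neg_def, h1, h2, h3, h4,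
    nsmul_eq_mul, Nat.cast_ofNat] <;> grind

theorem ex_comm (h : (13 : R) = 0) (a b : UT R) (ha : Str a) (hb : Str b) :
    ex a * ex b * ex (-a) * ex (-b) = ex (cm a b) := by
  obtain ⟨h1, h2, h3, h4⟩ := ha
  obtain ⟨k1, k2, k3, k4⟩ := hb
  ext <;> simp only [ex, cm, br, mul_def, add_def, sub_def, smul_def, one_def, neg_def,
    h1, h2, h3, h4, k1, k2, k3, k4, nsmul_eq_mul, Nat.cast_ofNat] <;> grind

theorem Str.zero : Str (0 : UT R) := ⟨rfl, rfl, rfl, rfl⟩

theorem Str.add {a b : UT R} (ha : Str a) (hb : Str b) : Str (a + b) := by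
  obtain ⟨h1, h2, h3, h4⟩ := ha
  obtain ⟨k1, k2, k3, k4⟩ := hb
  simp only [Str, add_def, h1, h2, h3, h4, k1, k2, k3, k4, add_zero, and_self]

theorem Str.neg {a : UT R} (ha : Str a) : Str (-a) := by
  obtain ⟨h1, h2, h3, h4⟩ := ha
  simp only [Str, neg_def, h1, h2, h3, h4, neg_zero, and_self]

theorem Str.sub {a b : UT R} (ha : Str a) (hb : Str b) : Str (a - b) := by
  rw [sub_eq_add_neg]; exact ha.add hb.neg

theorem Str.nsmul {a : UT R} (ha : Str a) (n : ℕ) : Str (n • a) := by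
  obtain ⟨h1, h2, h3, h4⟩ := ha
  simp only [Str, smul_def, h1, h2, h3, h4, smul_zero, and_self]

theorem Str.mul_right {a : UT R} (ha : Str a) (b : UT R) : Str (a * b) := by
  obtain ⟨h1, h2, h3, h4⟩ := ha
  simp only [Str, mul_def, h1, h2, h3, h4, zero_mul, and_self]

theorem Str.mul_left {a : UT R} (ha : Str a) (b : UT R) : Str (b * a) := by
  obtain ⟨h1, h2, h3, h4⟩ := ha
  simp only [Str, mul_def, h1, h2, h3, h4, mul_zero, and_self]

theorem br_str (a b : UT R) : Str (br a b) := by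
  simp only [Str, br, sub_def, mul_def]
  refine ⟨?_, ?_, ?_, ?_⟩ <;> ring

theorem cm_str (a b : UT R) : Str (cm a b) :=
  ((br_str a b).add ((br_str _ _).nsmul 7)).add ((br_str _ _).nsmul 7)

theorem lg_str {u : UT R} (hu : Uni u) : Str (lg u) := by
  obtain ⟨h1, h2, h3, h4⟩ := hu
  simp only [Str, lg, add_def, sub_def, mul_def, smul_def, one_def, h1, h2, h3, h4, sub_self,
    mul_zero, smul_zero, add_zero, and_self]

theorem ex_uni {a : UT R} (ha : Str a) : Uni (ex a) := by
  obtain ⟨h1, h2, h3, h4⟩ := ha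
  simp only [Uni, ex, add_def, mul_def, smul_def, one_def, h1, h2, h3, h4,
    mul_zero, smul_zero, add_zero, and_self]

theorem ex_lg (h : (13 : R) = 0) {u : UT R} (hu : Uni u) : ex (lg u) = u := by
  obtain ⟨h1, h2, h3, h4⟩ := hu
  ext <;> simp only [ex, lg, mul_def, add_def, sub_def, smul_def, one_def,
    h1, h2, h3, h4, nsmul_eq_mul, Nat.cast_ofNat] <;> grind

theorem ex_neg' (h : (13 : R) = 0) (a : UT R) (ha : Str a) : ex (-a) * ex a = 1 := by
  have := ex_neg h (-a) ha.neg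
  rwa [neg_neg] at this

theorem ex_zero : ex (0 : UT R) = 1 := by simp [ex]

theorem ex_succ (h : (13 : R) = 0) (a : UT R) (ha : Str a) (n : ℕ) :
    ex ((n + 1) • a) = ex (n • a) * ex a := by
  obtain ⟨h1, h2, h3, h4⟩ := ha
  ext <;> simp only [ex, mul_def, add_def, smul_def, one_def,
    h1, h2, h3, h4, nsmul_eq_mul, Nat.cast_ofNat, Nat.cast_succ] <;> grind

theorem ex_pow (h : (13 : R) = 0) (a : UT R) (ha : Str a) (n : ℕ) :
    ex a ^ n = ex (n • a) := by
  induction n with
  | zero => simp [ex_zero]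
  | succ n ih => rw [pow_succ, ih, ex_succ h a ha]

theorem ex_add (h : (13 : R) = 0) (a b : UT R) (ha : Str a) (hb : Str b) :
    ex a * ex b * ex (6 • cm a b) * ex (8 • cm a (cm a b)) * ex (6 • cm b (cm a b)) =
      ex (a + b) := by
  obtain ⟨h1, h2, h3, h4⟩ := ha
  obtain ⟨k1, k2, k3, k4⟩ := hb
  ext <;> simp only [ex, cm, br, mul_def, add_def, sub_def, smul_def, one_def, zero_def,
    h1, h2, h3, h4, k1, k2, k3, k4, nsmul_eq_mul, Nat.cast_ofNat, mul_zero, zero_mul, add_zero,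
    zero_add, sub_zero, sub_self, mul_one, one_mul] <;> grind

/-- Conjugation minus identity, with the inverse given separately. -/
def dd (z z' M : UT R) : UT R := z * M * z' - M

/-- The combination that recovers the difference of two logarithms. -/
def kp (e e' f f' : UT R) : UT R :=
  lg (f * e') - 7 • dd e e' (lg (f * e')) + 8 • dd e e' (dd e e' (lg (f * e'))) +
    dd f f' (dd e e' (lg (f * e')))

theorem kp_ex (h : (13 : R) = 0) (a b : UT R) (ha : Str a) (hb : Str b) :
    kp (ex a) (ex (-a)) (ex b) (ex (-b)) = b - a := by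
  obtain ⟨h1, h2, h3, h4⟩ := ha
  obtain ⟨k1, k2, k3, k4⟩ := hb
  ext <;> simp only [kp, dd, lg, ex, mul_def, add_def, sub_def, smul_def, one_def, neg_def,
    h1, h2, h3, h4, k1, k2, k3, k4, nsmul_eq_mul, Nat.cast_ofNat, mul_zero, zero_mul, add_zero,
    zero_add, sub_zero, sub_self, mul_one, one_mul, neg_zero] <;> grind

theorem ex_conj (z z' a : UT R) (h1 : z * z' = 1) (h2 : z' * z = 1) :
    z * ex a * z' = ex (z * a * z') := by
  have e2 : (z * a * z') * (z * a * z') = z * (a * a) * z' := by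
    calc (z * a * z') * (z * a * z') = z * a * (z' * z) * a * z' := by simp only [mul_assoc]
      _ = z * (a * a) * z' := by rw [h2]; simp only [mul_assoc, one_mul, mul_one]
  have e3 : (z * a * z') * (z * a * z') * (z * a * z') = z * (a * a * a) * z' := by
    rw [e2]
    calc z * (a * a) * z' * (z * a * z') = z * (a * a) * (z' * z) * a * z' := by
          simp only [mul_assoc]
      _ = z * (a * a * a) * z' := by rw [h2]; simp only [mul_assoc, one_mul, mul_one]
  simp only [ex]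
  rw [e3, e2]
  simp only [mul_add, add_mul, mul_one, h1, mul_smul_comm, smul_mul_assoc]

theorem ex_of_sq {a : UT R} (ha : a * a = 0) : ex a = 1 + a := by
  simp [ex, ha]

theorem map_lg {S : Type} [CommRing S] (f : R →+* S) (u : UT R) : map f (lg u) = lg (map f u) := by
  simp only [lg, map_add, map_sub, map_mul, map_one, map_nsmul]

theorem map_dd {S : Type} [CommRing S] (f : R →+* S) (z z' M : UT R) :
    map f (dd z z' M) = dd (map f z) (map f z') (map f M) := by
  simp only [dd, map_sub, map_mul]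

theorem map_kp {S : Type} [CommRing S] (f : R →+* S) (e e' g g' : UT R) :
    map f (kp e e' g g') = kp (map f e) (map f e') (map f g) (map f g') := by
  simp only [kp, map_add, map_sub, map_mul, map_nsmul, map_dd, map_lg]

theorem thirteen (h : (13 : R) = 0) : (13 : UT R) = 0 := by
  have h' : ((13 : ℕ) : R) = 0 := by exact_mod_cast h
  have : (13 : UT R) = ((13 : ℕ) : UT R) := rfl
  rw [this, natCast_def, h']
  rfl

end UT

end Pool.Agent.MP_394f71_al.H79
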