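import Pool.Agent.MP_394f71_al.H79.Local

set_option autoImplicit false

namespace Pool.Agent.MP_394f71_al.H79

open UT

variable {R : Type} [CommRing R]

theorem unit_inv_eq (S : Setup R) (x : (UT R)ˣ) (hx : x.val - 1 ∈ Fil S.m 1 1) :
    x⁻¹ = x ^ (13 ^ 4 - 1) := by
  have h : x ^ 13 ^ 4 = 1 := Units.ext (by
    rw [Units.val_pow_eq_pow_val]; exact pow_big S.h13 S.hN hx)
  rw [inv_eq_iff_mul_eq_one, ← pow_succ']
  exact h

/-- The group of the counterexample. -/
def GG (S : Setup R) : Subgroup (UT R)ˣ where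
  carrier := {x | InG S x.val}
  one_mem' := InG.one S
  mul_mem' := fun hx hy => InG.mul hx hy
  inv_mem' := fun {x} hx => by
    have hx' : InG S x.val := hx
    rw [unit_inv_eq S x (hx'.sub_one le_rfl)]
    show InG S (x ^ (13 ^ 4 - 1)).val
    rw [Units.val_pow_eq_pow_val]
    exact hx'.pow _

abbrev Wd := FreeGroup (Fin 2)

abbrev Pt (S : Setup R) := GG S × GG S

/-- Value of a word at a pair of group elements, as a matrix. -/
def vl {S : Setup R} (p : Pt S) : Wd →* UT R :=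
  (Units.coeHom (UT R)).comp ((GG S).subtype.comp (FreeGroup.lift ![p.1, p.2]))

theorem vl_def {S : Setup R} (p : Pt S) (u : Wd) :
    vl p u = ((FreeGroup.lift ![p.1, p.2] u : GG S) : (UT R)ˣ).val := rfl

theorem vl_inG {S : Setup R} (p : Pt S) (u : Wd) : InG S (vl p u) :=
  (FreeGroup.lift ![p.1, p.2] u).2

theorem vl_inv {S : Setup R} (p : Pt S) (u : Wd) : vl p u * vl p u⁻¹ = 1 := by
  rw [← map_mul, mul_inv_cancel, map_one]

theorem vl_inv' {S : Setup R} (p : Pt S) (u : Wd) : vl p u⁻¹ * vl p u = 1 := by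
  rw [← map_mul, inv_mul_cancel, map_one]

theorem vl_neg {S : Setup R} {p : Pt S} {u : Wd} {a : UT R} (ha : Str a) (h : vl p u = ex a) :
    vl p u⁻¹ = ex (-a) := by
  calc vl p u⁻¹ = vl p u⁻¹ * (ex a * ex (-a)) := by rw [ex_neg S.h13 a ha, mul_one]
    _ = _ := by rw [← mul_assoc, ← h, vl_inv', one_mul]

theorem vl_cm {S : Setup R} {p : Pt S} {u w : Wd} {a b : UT R} (ha : Str a) (hb : Str b)
    (h : vl p u = ex a) (h' : vl p w = ex b) : vl p (u * w * u⁻¹ * w⁻¹) = ex (cm a b) := by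
  rw [map_mul, map_mul, map_mul, vl_neg ha h, vl_neg hb h', h, h', ex_comm S.h13 a b ha hb]

theorem vl_pow {S : Setup R} {p : Pt S} {u : Wd} {a : UT R} (ha : Str a) (h : vl p u = ex a)
    (n : ℕ) : vl p (u ^ n) = ex (n • a) := by
  rw [map_pow, h, ex_pow S.h13 a ha]

/-- Logarithms of unipotent word maps. -/
def WW (S : Setup R) : AddSubgroup (Pt S → UT R) where
  carrier := {f | (∀ p, Str (f p)) ∧ ∃ u : Wd, ∀ p, vl p u = ex (f p)}
  zero_mem' := ⟨fun _ => Str.zero, 1, fun p => by rw [map_one, Pi.zero_apply, ex_zero]⟩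
  neg_mem' := by
    rintro f ⟨hf, u, hu⟩
    exact ⟨fun p => (hf p).neg, u⁻¹, fun p => vl_neg (hf p) (hu p)⟩
  add_mem' := by
    rintro f g ⟨hf, u, hu⟩ ⟨hg, w, hw⟩
    refine ⟨fun p => (hf p).add (hg p), u * w * (u * w * u⁻¹ * w⁻¹) ^ 6 *
      (u * (u * w * u⁻¹ * w⁻¹) * u⁻¹ * (u * w * u⁻¹ * w⁻¹)⁻¹) ^ 8 *
      (w * (u * w * u⁻¹ * w⁻¹) * w⁻¹ * (u * w * u⁻¹ * w⁻¹)⁻¹) ^ 6, fun p => ?_⟩
    have hc := vl_cm (hf p) (hg p) (hu p) (hw p)
    rw [map_mul, map_mul, map_mul, map_mul, vl_pow (cm_str _ _) hc,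
      vl_pow (cm_str _ _) (vl_cm (hf p) (cm_str _ _) (hu p) hc),
      vl_pow (cm_str _ _) (vl_cm (hg p) (cm_str _ _) (hw p) hc), hu, hw, Pi.add_apply,
      ex_add S.h13 _ _ (hf p) (hg p)]

def Ad {S : Setup R} (u : Wd) (f : Pt S → UT R) : Pt S → UT R :=
  fun p => vl p u * f p * vl p u⁻¹

def Dop {S : Setup R} (u : Wd) (f : Pt S → UT R) : Pt S → UT R :=
  fun p => dd (vl p u) (vl p u⁻¹) (f p)

theorem Dop_eq {S : Setup R} (u : Wd) (f : Pt S → UT R) : Dop u f = Ad u f - f := rfl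

theorem Ad_mem {S : Setup R} (u : Wd) {f : Pt S → UT R} (hf : f ∈ WW S) : Ad u f ∈ WW S := by
  obtain ⟨hf, w, hw⟩ := hf
  refine ⟨fun p => ((hf p).mul_left _).mul_right _, u * w * u⁻¹, fun p => ?_⟩
  rw [map_mul, map_mul, hw, ex_conj _ _ _ (vl_inv p u) (vl_inv' p u), Ad]

theorem Dop_mem {S : Setup R} (u : Wd) {f : Pt S → UT R} (hf : f ∈ WW S) : Dop u f ∈ WW S :=
  sub_mem (Ad_mem u hf) hf

theorem Dop_add {S : Setup R} (u : Wd) (f g : Pt S → UT R) :
    Dop u (f + g) = Dop u f + Dop u g := by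
  funext p
  simp only [Dop, dd, Pi.add_apply, mul_add, add_mul]; abel

theorem Dop_mul {S : Setup R} (u w : Wd) (f : Pt S → UT R) :
    Dop (u * w) f = Dop u (Ad w f) + Dop w f := by
  funext p
  simp only [Dop, Ad, dd, Pi.add_apply, mul_inv_rev, map_mul, mul_assoc]; abel

theorem Dop_inv {S : Setup R} (u : Wd) (f : Pt S → UT R) :
    Dop u⁻¹ f = -Dop u (Ad u⁻¹ f) := by
  funext p
  have e : vl p u * (vl p u⁻¹ * f p * vl p u) * vl p u⁻¹ = f p := by
    calc _ = (vl p u * vl p u⁻¹) * f p * (vl p u * vl p u⁻¹) := by simp only [mul_assoc]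
      _ = _ := by rw [vl_inv, one_mul, mul_one]
  simp only [Dop, Ad, dd, Pi.neg_apply, inv_inv, e]; abel

theorem Dop_big {S : Setup R} (u : Wd) (f : Pt S → UT R) : Dop (u ^ 13 ^ 4) f = 0 := by
  funext p
  have e1 : vl p (u ^ 13 ^ 4) = 1 := by
    rw [map_pow]; exact pow_big S.h13 S.hN ((vl_inG p u).sub_one le_rfl)
  have e2 : vl p (u ^ 13 ^ 4)⁻¹ = 1 := by
    have := vl_inv p (u ^ 13 ^ 4)
    rwa [e1, one_mul] at this
  simp only [Dop, dd, e1, e2, one_mul, mul_one, sub_self, Pi.zero_apply]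

def wx : Wd := FreeGroup.of 0
def wy : Wd := FreeGroup.of 1

/-- The word that is small on the class c. -/
def yw (c : Fin 14) : Wd := if c.val < 13 then (wx ^ c.val)⁻¹ * wy else wx

def Om {S : Setup R} (c : Fin 14) (p : Pt S) : Prop := Sm S (vl p (yw c))

/-- Word logarithms with prescribed weights on the classes. -/
def Wf (S : Setup R) (w : Fin 14 → ℕ) : AddSubgroup (Pt S → UT R) where
  carrier := {f | f ∈ WW S ∧ ∀ c p, Om c p → f p ∈ Fil S.m 13 (w c)}
  zero_mem' := ⟨zero_mem _, fun _ _ _ => zero_mem _⟩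
  neg_mem' := fun hf => ⟨neg_mem hf.1, fun c p h => neg_mem (hf.2 c p h)⟩
  add_mem' := fun hf hg => ⟨add_mem hf.1 hg.1, fun c p h => add_mem (hf.2 c p h) (hg.2 c p h)⟩

theorem Wf_anti {S : Setup R} {w w' : Fin 14 → ℕ} (h : ∀ c, w' c ≤ w c) : Wf S w ≤ Wf S w' :=
  fun _ hf => ⟨hf.1, fun c p hp => Fil_mono (hf.2 c p hp) (h c)⟩

theorem Ad_Wf {S : Setup R} {w : Fin 14 → ℕ} (u : Wd) {f : Pt S → UT R} (hf : f ∈ Wf S w) :
    Ad u f ∈ Wf S w :=
  ⟨Ad_mem u hf.1, fun c p hp => Fil_mul_right (Fil_mul_left _ (hf.2 c p hp)) _⟩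

theorem Dop_Wf {S : Setup R} {w : Fin 14 → ℕ} (u : Wd) {f : Pt S → UT R} (hf : f ∈ Wf S w) :
    Dop u f ∈ Wf S (fun c => w c + 1) :=
  ⟨Dop_mem u hf.1, fun c p hp =>
    dd_mem (vl_inv p u) ((vl_inG p u).sub_one (by omega)) (hf.2 c p hp)⟩

theorem Dop_yw {S : Setup R} {w : Fin 14 → ℕ} (c : Fin 14) {f : Pt S → UT R} (hf : f ∈ Wf S w) :
    Dop (yw c) f ∈ Wf S (fun d => w d + 1 + if d = c then 12 else 0) := by
  refine ⟨Dop_mem _ hf.1, fun d p hp => ?_⟩
  by_cases h : d = c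
  · subst h
    exact Fil_mono (dd_mem (vl_inv p _) hp (hf.2 d p hp)) (by simp)
  · exact Fil_mono ((Dop_Wf (yw c) hf).2 d p hp) (by simp [h])

/-- Words whose operator splits between two classes. -/
def Good (S : Setup R) (c c' : Fin 14) : Subgroup Wd where
  carrier := {u | ∀ (w : Fin 14 → ℕ) (f : Pt S → UT R), f ∈ Wf S w →
    Dop u f ∈ Wf S (fun d => w d + 1 + if d = c then 12 else 0) ⊔
      Wf S (fun d => w d + 1 + if d = c' then 12 else 0)}
  one_mem' := fun w f _ => by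
    have : Dop (1 : Wd) f = 0 := by
      funext p; simp [Dop, dd]
    rw [this]; exact zero_mem _
  mul_mem' := fun {u v} hu hv w f hf => by
    rw [Dop_mul]
    exact add_mem (hu w _ (Ad_Wf v hf)) (hv w f hf)
  inv_mem' := fun {u} hu w f hf => by
    rw [Dop_inv]
    exact neg_mem (hu w _ (Ad_Wf _ hf))

theorem good_left (S : Setup R) (c c' : Fin 14) : yw c ∈ Good S c c' :=
  fun _ _ hf => AddSubgroup.mem_sup_left (Dop_yw c hf)

theorem good_right (S : Setup R) (c c' : Fin 14) : yw c' ∈ Good S c c' :=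
  fun _ _ hf => AddSubgroup.mem_sup_right (Dop_yw c' hf)

theorem good_big (S : Setup R) (c c' : Fin 14) (u : Wd) : u ^ 13 ^ 4 ∈ Good S c c' :=
  fun _ _ _ => by rw [Dop_big]; exact zero_mem _

theorem sub_of_pow {K : Subgroup Wd} {u : Wd} {d : ℕ} (h0 : 0 < d) (h13 : d < 13)
    (h1 : u ^ d ∈ K) (h2 : u ^ 13 ^ 4 ∈ K) : u ∈ K := by
  have hc : Nat.Coprime d (13 ^ 4) := by
    apply Nat.Coprime.pow_right
    exact ((Nat.coprime_primes (by norm_num) (by norm_num)).2 (by norm_num) |> fun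
      (_ : Nat.Coprime 13 2) => (Nat.Coprime.symm ((Nat.Prime.coprime_iff_not_dvd
        (by norm_num)).2 (fun h => absurd (Nat.le_of_dvd h0 h) (by omega)))))
  have e := Nat.gcd_eq_gcd_ab d (13 ^ 4)
  rw [hc] at e
  have : u = (u ^ d) ^ (Nat.gcdA d (13 ^ 4)) * (u ^ 13 ^ 4) ^ (Nat.gcdB d (13 ^ 4)) := by
    rw [← zpow_natCast, ← zpow_natCast, ← zpow_mul, ← zpow_mul, ← zpow_add, ← e]; simp
  rw [this]
  exact mul_mem (zpow_mem h1 _) (zpow_mem h2 _)

theorem top_of_two {K : Subgroup Wd} {c c' : Fin 14} (hc : c.val < c'.val) (h1 : yw c ∈ K)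
    (h2 : yw c' ∈ K) (hb : wx ^ 13 ^ 4 ∈ K) (u : Wd) : u ∈ K := by
  have hc13 : c.val < 13 := by have := c'.2; omega
  rw [yw, if_pos hc13] at h1
  have hx : wx ∈ K := by
    by_cases h : c'.val < 13
    · rw [yw, if_pos h] at h2
      refine sub_of_pow (K := K) (u := wx) (d := c'.val - c.val) (by omega) (by omega) ?_ hb
      have := mul_mem h1 (inv_mem h2)
      have e : (wx ^ c.val)⁻¹ * wy * ((wx ^ c'.val)⁻¹ * wy)⁻¹ = wx ^ (c'.val - c.val) := by
        obtain ⟨k, hk⟩ := Nat.exists_eq_add_of_le hc.le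
        rw [hk, Nat.add_sub_cancel_left, pow_add]; group
      rwa [e] at this
    · rw [yw, if_neg h] at h2
      exact h2
  have hy : wy ∈ K := by
    have := mul_mem (pow_mem hx c.val) h1
    rwa [mul_inv_cancel_left] at this
  induction u using FreeGroup.induction_on with
  | C1 => exact one_mem _
  | of i => fin_cases i; exacts [hx, hy]
  | inv_of i h => exact inv_mem h
  | mul a b ha hb => exact mul_mem ha hb

theorem good_all (S : Setup R) {c c' : Fin 14} (h : c ≠ c') (u : Wd) : u ∈ Good S c c' := by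
  rcases lt_or_gt_of_ne (fun e => h (Fin.ext e)) with hc | hc
  · exact top_of_two hc (good_left S c c') (good_right S c c') (good_big S c c' _) u
  · exact top_of_two hc (good_right S c c') (good_left S c c') (good_big S c c' _) u

/-- Span of the images under the operators. -/
def step {S : Setup R} (N : AddSubgroup (Pt S → UT R)) : AddSubgroup (Pt S → UT R) :=
  AddSubgroup.closure {g | ∃ u : Wd, ∃ f ∈ N, g = Dop u f}

theorem step_le {S : Setup R} {N K : AddSubgroup (Pt S → UT R)}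
    (h : ∀ u : Wd, ∀ f ∈ N, Dop u f ∈ K) : step N ≤ K := by
  rw [step, AddSubgroup.closure_le]
  rintro g ⟨u, f, hf, rfl⟩
  exact h u f hf

theorem mem_step {S : Setup R} {N : AddSubgroup (Pt S → UT R)} (u : Wd) {f : Pt S → UT R}
    (hf : f ∈ N) : Dop u f ∈ step N := AddSubgroup.subset_closure ⟨u, f, hf, rfl⟩

theorem step_sup {S : Setup R} {N A B : AddSubgroup (Pt S → UT R)} (h : N ≤ A ⊔ B) :
    step N ≤ step A ⊔ step B := by
  refine step_le fun u f hf => ?_
  obtain ⟨a, ha, b, hb, rfl⟩ := AddSubgroup.mem_sup.1 (h hf)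
  rw [Dop_add]
  exact add_mem (AddSubgroup.mem_sup_left (mem_step u ha)) (AddSubgroup.mem_sup_right (mem_step u hb))

theorem iter_sup {S : Setup R} (n : ℕ) {N A B : AddSubgroup (Pt S → UT R)} (h : N ≤ A ⊔ B) :
    step^[n] N ≤ step^[n] A ⊔ step^[n] B := by
  induction n with
  | zero => exact h
  | succ n ih =>
    rw [Function.iterate_succ_apply', Function.iterate_succ_apply', Function.iterate_succ_apply']
    exact step_sup ih

theorem iter_Wf {S : Setup R} (n : ℕ) (w : Fin 14 → ℕ) :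
    step^[n] (Wf S w) ≤ Wf S (fun c => w c + n) := by
  induction n with
  | zero => exact le_rfl
  | succ n ih =>
    rw [Function.iterate_succ_apply']
    exact step_le fun u f hf => Dop_Wf u (ih hf)

theorem sep_two {S : Setup R} {c c' : Fin 14} (h : c ≠ c') (n : ℕ) : ∀ (a b : ℕ) (w : Fin 14 → ℕ),
    a + b = n + 1 → step^[n] (Wf S w) ≤ Wf S (fun d => w d + n + if d = c then 12 * a else 0) ⊔
      Wf S (fun d => w d + n + if d = c' then 12 * b else 0) := by
  induction n with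
  | zero =>
    intro a b w hab
    rcases Nat.eq_zero_or_pos a with ha | ha
    · subst ha; exact le_sup_of_le_left (Wf_anti fun d => by simp)
    · have : b = 0 := by omega
      subst this; exact le_sup_of_le_right (Wf_anti fun d => by simp)
  | succ n ih =>
    intro a b w hab
    rcases Nat.eq_zero_or_pos a with ha | ha
    · subst ha; exact le_sup_of_le_left ((iter_Wf _ w).trans (Wf_anti fun d => by simp))
    rcases Nat.eq_zero_or_pos b with hb | hb
    · subst hb; exact le_sup_of_le_right ((iter_Wf _ w).trans (Wf_anti fun d => by simp))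
    rw [Function.iterate_succ_apply]
    refine (iter_sup n (step_le fun u f hf => good_all S h u w f hf)).trans (sup_le ?_ ?_)
    · refine (ih (a - 1) b _ (by omega)).trans (sup_le_sup (Wf_anti fun d => ?_)
        (Wf_anti fun d => ?_)) <;> split_ifs <;> omega
    · refine (ih a (b - 1) _ (by omega)).trans (sup_le_sup (Wf_anti fun d => ?_)
        (Wf_anti fun d => ?_)) <;> split_ifs <;> omega

theorem sep_all {S : Setup R} (c : Fin 14) (s : Finset (Fin 14)) (hc : c ∉ s) (w : Fin 14 → ℕ) :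
    step^[5 * s.card] (Wf S w) ≤ Wf S (fun d => w d + 5 * s.card + if d = c then 36 else 0) ⊔
      Wf S (fun d => w d + 5 * s.card + if d ∈ s then 36 else 0) := by
  induction s using Finset.induction_on with
  | empty => exact le_sup_of_le_right (Wf_anti fun d => by simp)
  | insert c' s hs ih =>
    have h1 : c ≠ c' := fun e => hc (e ▸ Finset.mem_insert_self _ _)
    have h2 : c ∉ s := fun e => hc (Finset.mem_insert_of_mem e)
    rw [Finset.card_insert_of_notMem hs, Nat.mul_succ, add_comm (5 * s.card) 5,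
      Function.iterate_add_apply]
    refine (iter_sup 5 (ih h2)).trans (sup_le ?_ ?_)
    · exact le_sup_of_le_left ((iter_Wf 5 _).trans (Wf_anti fun d => by omega))
    · refine (sep_two h1 5 3 3 _ rfl).trans (sup_le_sup (Wf_anti fun d => ?_)
        (Wf_anti fun d => ?_))
      · split_ifs <;> omega
      · simp only [Finset.mem_insert]
        by_cases e1 : d = c' <;> by_cases e2 : d ∈ s <;> simp [e1, e2] <;> omega

theorem patch {S : Setup R} (c : Fin 14) {f : Pt S → UT R} {k : ℕ} (hk : k = 4223)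
    (hf : f ∈ step^[k] (WW S)) :
    ∃ g ∈ WW S, (∀ p, Om c p → g p = f p) ∧ ∀ d, d ≠ c → ∀ p, Om d p → g p = 0 := by
  have h0 : WW S = Wf S (fun _ => 13) :=
    le_antisymm (fun f hf => ⟨hf, fun _ p _ => Fil_of_str _ le_rfl (hf.1 p)⟩) fun f hf => hf.1
  have hcard : (Finset.univ.erase c).card = 13 := by simp
  have h1 := sep_all (S := S) c (Finset.univ.erase c) (by simp) (fun _ => 13)
  obtain ⟨n, hn⟩ : ∃ n, k = n + 5 * (Finset.univ.erase c).card := ⟨4158, by omega⟩
  rw [h0, hn, Function.iterate_add_apply] at hf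
  have h2 := (iter_sup n h1).trans (sup_le_sup (iter_Wf n _) (iter_Wf n _)) hf
  obtain ⟨a, ha, b, hb, rfl⟩ := AddSubgroup.mem_sup.1 h2
  refine ⟨b, hb.1, fun p hp => ?_, fun d hd p hp => ?_⟩
  · have : a p = 0 := Fil_eq_zero S.hN (ha.2 c p hp) (by
      beta_reduce; rw [J_eq, if_pos rfl]; omega)
    rw [Pi.add_apply, this, zero_add]
  · exact Fil_eq_zero S.hN (hb.2 d p hp) (by
      beta_reduce; rw [J_eq, if_pos (by simp [hd])]; omega)

end Pool.Agent.MP_394f71_al.H79
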